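import Pool.Agent.H59.PM.Invol

/-!
# Module Anal (PM): the set of the actions with a measurable perfect matching is analytic
-/

set_option autoImplicit false

open MeasureTheory Filter Topology

namespace Pool.Agent.H59.PM

/-- the generators and their inverses in one sequence -/
noncomputable def hgen (k : ℕ) (g : ℕ → Aut01) : Aut01 := if k % 2 = 0 then g (k / 2) else (g (k / 2))⁻¹

theorem continuous_hgen (k : ℕ) : Continuous (hgen k) := by
  unfold hgen
  by_cases h : k % 2 = 0
  · simp only [if_pos h]
    exact continuous_apply _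
  · simp only [if_neg h]
    exact continuous_inv.comp (continuous_apply _)

theorem good_iff (g : ℕ → Aut01) (τ : Aut01) : Good g τ ↔
    ((volume : Measure unitInterval) {p | ∀ k, (rep τ).1 p ≠ (rep (hgen k g)).1 p} = 0 ∧
      (volume : Measure unitInterval) {p | ∀ _k : ℕ, (rep τ).1 p ≠ (rep 1).1 p} = 1) ∧ τ * τ = 1 := by
  have h1 : (∀ᵐ p : unitInterval, ∃ i, (rep τ).1 p = (rep (g i)).1 p ∨
      (rep τ).1 p = (rep (g i)).1.symm p) ↔
      (volume : Measure unitInterval) {p | ∀ k, (rep τ).1 p ≠ (rep (hgen k g)).1 p} = 0 := by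
    have h2 : (volume : Measure unitInterval) {p | ∀ k, (rep τ).1 p ≠ (rep (hgen k g)).1 p} = 0 ↔
        ∀ᵐ p : unitInterval, ¬ ∀ k, (rep τ).1 p ≠ (rep (hgen k g)).1 p := measure_eq_zero_iff_ae_notMem
    rw [h2]
    have h3 : ∀ᵐ p : unitInterval, ∀ i, (rep (g i)⁻¹).1 p = (rep (g i)).1.symm p :=
      ae_all_iff.2 fun i => rep_inv (g i)
    constructor
    · intro h
      filter_upwards [h, h3] with p hp1 hp2 hp3
      obtain ⟨i, hi | hi⟩ := hp1
      · refine hp3 (2 * i) ?_
        have h4 : hgen (2 * i) g = g i := by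
          unfold hgen
          rw [if_pos (by omega)]
          congr 1
          omega
        rw [h4]
        exact hi
      · refine hp3 (2 * i + 1) ?_
        have h4 : hgen (2 * i + 1) g = (g i)⁻¹ := by
          unfold hgen
          rw [if_neg (by omega)]
          congr 2
          omega
        rw [h4, hp2]
        exact hi
    · intro h
      filter_upwards [h, h3] with p hp1 hp2
      push Not at hp1
      obtain ⟨k, hk⟩ := hp1
      refine ⟨k / 2, ?_⟩
      unfold hgen at hk
      by_cases h5 : k % 2 = 0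
      · rw [if_pos h5] at hk
        exact Or.inl hk
      · rw [if_neg h5, hp2] at hk
        exact Or.inr hk
  have h2 : (∀ᵐ p : unitInterval, (rep τ).1 p ≠ p) ↔
      (volume : Measure unitInterval) {p | ∀ _k : ℕ, (rep τ).1 p ≠ (rep 1).1 p} = 1 := by
    have h3 : MeasurableSet {p : unitInterval | ∀ _k : ℕ, (rep τ).1 p ≠ (rep 1).1 p} := by
      have h4 : {p : unitInterval | ∀ _k : ℕ, (rep τ).1 p ≠ (rep 1).1 p} =
          {p | (rep τ).1 p = (rep 1).1 p}ᶜ := by
        ext p
        exact ⟨fun h => h 0, fun h _ => h⟩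
      rw [h4]
      exact (measurableSet_eq_fun (rep τ).2.1.measurable (rep 1).2.1.measurable).compl
    rw [← prob_compl_eq_zero_iff h3, measure_eq_zero_iff_ae_notMem]
    constructor
    · intro h
      filter_upwards [h, rep_one] with p hp1 hp2 hp3
      exact hp3 fun _ => by rw [hp2]; exact hp1
    · intro h
      filter_upwards [h, rep_one] with p hp1 hp2 hp3
      refine hp1 fun hp4 => hp4 0 ?_
      rw [hp2]
      exact hp3
  have h3 : (∀ᵐ p : unitInterval, (rep τ).1 ((rep τ).1 p) = p) ↔ τ * τ = 1 := by
    rw [eq_iff]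
    constructor
    · intro h
      filter_upwards [h, rep_one, rep_mul τ τ] with p hp1 hp2 hp3
      rw [hp3, hp2, hp1]
    · intro h
      filter_upwards [h, rep_one, rep_mul τ τ] with p hp1 hp2 hp3
      rw [← hp3, hp1, hp2]
  unfold Good
  rw [h1, h2, h3, and_assoc]

theorem analytic_gen : AnalyticSet {g : ℕ → Aut01 | ∃ τ, Good g τ} := by
  let m : MeasurableSpace ((ℕ → Aut01) × Aut01) := borel _
  have hb : BorelSpace ((ℕ → Aut01) × Aut01) := ⟨rfl⟩
  have h1 : MeasurableSet {z : (ℕ → Aut01) × Aut01 | Good z.1 z.2} := by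
    have h2 : {z : (ℕ → Aut01) × Aut01 | Good z.1 z.2} =
        ((fun z : (ℕ → Aut01) × Aut01 => (volume : Measure unitInterval)
          {p | ∀ k, (rep z.2).1 p ≠ (rep (hgen k z.1)).1 p}) ⁻¹' {0} ∩
        (fun z : (ℕ → Aut01) × Aut01 => (volume : Measure unitInterval)
          {p | ∀ _k : ℕ, (rep z.2).1 p ≠ (rep 1).1 p}) ⁻¹' {1}) ∩
        {z : (ℕ → Aut01) × Aut01 | z.2 * z.2 = 1} := by
      ext z
      exact good_iff z.1 z.2
    rw [h2]
    refine MeasurableSet.inter (MeasurableSet.inter ?_ ?_) ?_
    · exact (measurable_sep (fun _ z => z.2) (fun k (z : (ℕ → Aut01) × Aut01) => hgen k z.1)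
        (fun _ => continuous_snd) fun k => (continuous_hgen k).comp continuous_fst)
        (measurableSet_singleton 0)
    · exact (measurable_sep (fun _ z => z.2) (fun _ (_ : (ℕ → Aut01) × Aut01) => 1)
        (fun _ => continuous_snd) fun _ => continuous_const) (measurableSet_singleton 1)
    · exact (isClosed_eq (continuous_snd.mul continuous_snd) continuous_const).measurableSet
  have h3 := h1.analyticSet.image_of_continuous continuous_fst
  have h4 : Prod.fst '' {z : (ℕ → Aut01) × Aut01 | Good z.1 z.2} = {g : ℕ → Aut01 | ∃ τ, Good g τ} := by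
    ext g
    constructor
    · rintro ⟨⟨g', τ⟩, h, rfl⟩
      exact ⟨τ, h⟩
    · rintro ⟨τ, h⟩
      exact ⟨(g, τ), h, rfl⟩
  rwa [h4] at h3

/-- the action with given generators -/
noncomputable def ofGen (g : ℕ → Aut01) : Act := FreeGroup.lift g

theorem ofGen_of (g : ℕ → Aut01) (i : ℕ) : ofGen g (FreeGroup.of i) = g i := FreeGroup.lift_apply_of

theorem ofGen_eq (x : Act) : ofGen (fun i => x (FreeGroup.of i)) = x := by
  refine FreeGroup.ext_hom _ _ fun i => ?_
  exact ofGen_of _ i

theorem continuous_ofGen : Continuous ofGen := by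
  refine continuous_induced_rng.2 (continuous_pi fun w => ?_)
  show Continuous fun g : ℕ → Aut01 => ofGen g w
  induction w using FreeGroup.induction_on with
  | C1 =>
    simp only [map_one]
    exact continuous_const
  | of i =>
    have h : (fun g : ℕ → Aut01 => ofGen g (FreeGroup.of i)) = fun g => g i := by
      funext g
      exact ofGen_of g i
    exact h ▸ continuous_apply i
  | inv_of i ih =>
    simp only [map_inv]
    exact continuous_inv.comp ih
  | mul a b iha ihb =>
    simp only [map_mul]
    exact iha.mul ihb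

theorem matched_iff (x : Act) : x ∈ Matched ↔ ∃ τ, Good (fun i => x (FreeGroup.of i)) τ :=
  ⟨good_of_hasMatching, fun ⟨_, h⟩ => hasMatching_of_good h⟩

theorem analytic_matched : AnalyticSet Matched := by
  have h := analytic_gen.image_of_continuous continuous_ofGen
  have h1 : ofGen '' {g : ℕ → Aut01 | ∃ τ, Good g τ} = Matched := by
    ext x
    rw [matched_iff]
    constructor
    · rintro ⟨g, hg, rfl⟩
      have h2 : (fun i => ofGen g (FreeGroup.of i)) = g := by
        funext i
        exact ofGen_of g i
      rw [h2]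
      exact hg
    · intro hx
      exact ⟨_, hx, ofGen_eq x⟩
  rwa [h1] at h

end Pool.Agent.H59.PM
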