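import Pool.Agent.H59.PM.Gam
import Pool.Agent.H59.PM.Anal

/-!
# Module Act (PM): the actions of the reduction
-/

set_option autoImplicit false

open MeasureTheory Filter Topology

namespace Pool.Agent.H59.PM

/-- the `i`-th node -/
def node (i : ℕ) : List ℕ := Denumerable.ofNat (List ℕ) i

theorem node_surjective (s : List ℕ) : ∃ i, node i = s := (Denumerable.eqv (List ℕ)).symm.surjective s

/-- the action whose `i`-th generator is `gam (node i)` if `b i` and the identity otherwise -/
noncomputable def phi (b : ℕ → Bool) : Act :=
  ofGen fun i => if b i = true then mk (gam (node i)) else 1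

theorem phi_of (b : ℕ → Bool) (i : ℕ) :
    phi b (FreeGroup.of i) = if b i = true then mk (gam (node i)) else 1 := ofGen_of _ i

theorem continuous_phi : Continuous phi := by
  refine continuous_ofGen.comp (continuous_pi fun i => ?_)
  have h : Continuous fun c : Bool => if c = true then mk (gam (node i)) else 1 := continuous_of_discreteTopology
  exact h.comp (continuous_apply i)

theorem ae_gen (b : ℕ → Bool) : ∀ᵐ p : unitInterval, ∀ i,
    (b i = true → gen (phi b) i p = (gam (node i)).1 p ∧ (gen (phi b) i).symm p = (gam (node i)).1 p) ∧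
      (b i = false → gen (phi b) i p = p ∧ (gen (phi b) i).symm p = p) := by
  rw [ae_all_iff]
  intro i
  by_cases h : b i = true
  · have h1 : phi b (FreeGroup.of i) = mk (gam (node i)) := by rw [phi_of, if_pos h]
    filter_upwards [rep_mk (gam (node i)), rep_mk_symm (gam (node i))] with p hp1 hp2
    refine ⟨fun _ => ?_, fun h2 => by rw [h] at h2; exact absurd h2 (by decide)⟩
    unfold gen
    rw [h1, hp1, hp2]
    exact ⟨rfl, rfl⟩
  · have h1 : phi b (FreeGroup.of i) = mk 1 := by rw [phi_of, if_neg h, mk_one]
    filter_upwards [rep_mk 1, rep_mk_symm 1] with p hp1 hp2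
    refine ⟨fun h2 => absurd h2 h, fun _ => ?_⟩
    unfold gen
    rw [h1, hp1, hp2]
    exact ⟨rfl, rfl⟩

/-- at almost every point the edges are given by the maps `gam s` -/
theorem ae_adj (b : ℕ → Bool) : ∀ᵐ p : unitInterval, ∀ q, Adj (phi b) p q ↔
    ∃ i, b i = true ∧ p ∈ Dset (node i) ∪ Eset (node i) ∧ q = (gam (node i)).1 p := by
  filter_upwards [ae_gen b] with p hp q
  constructor
  · rintro ⟨h1, i, h2⟩
    cases hb : b i with
    | true =>
      have h3 : q = (gam (node i)).1 p := by
        rcases h2 with h2 | h2
        · rw [h2, ((hp i).1 hb).1]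
        · rw [h2, ((hp i).1 hb).2]
      refine ⟨i, hb, mem_union_of_gam_ne ?_, h3⟩
      rw [← h3]
      exact h1.symm
    | false =>
      have h3 : q = p := by
        rcases h2 with h2 | h2
        · rw [h2, ((hp i).2 hb).1]
        · rw [h2, ((hp i).2 hb).2]
      exact absurd h3.symm h1
  · rintro ⟨i, hb, h1, h2⟩
    refine ⟨?_, i, Or.inl ?_⟩
    · rw [h2]
      exact (gam_ne h1).symm
    · rw [h2, ((hp i).1 hb).1]

/-- infinite branch from a strictly increasing chain -/
theorem exists_branch {T : Set (List ℕ)} (hT : ∀ s ∈ T, ∀ r, r <+: s → r ∈ T) {s : ℕ → List ℕ}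
    (hs : ∀ n, s n ∈ T) (h : ∀ n, s n <+: s (n + 1) ∧ s n ≠ s (n + 1)) :
    ∃ f : ℕ → ℕ, ∀ n, (List.range n).map f ∈ T := by
  have hlen : ∀ n, n ≤ (s n).length := by
    intro n
    induction n with
    | zero => exact Nat.zero_le _
    | succ n ih =>
      have h1 := (h n).1.length_le
      have h2 : (s n).length ≠ (s (n + 1)).length := fun h3 => (h n).2 ((h n).1.eq_of_length h3)
      omega
  have hpre : ∀ m n, m ≤ n → s m <+: s n := by
    intro m n hmn
    induction n, hmn using Nat.le_induction with
    | base => exact List.prefix_refl _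
    | succ n _ ih => exact ih.trans (h n).1
  refine ⟨fun n => (s (n + 1)).getD n 0, fun n => ?_⟩
  have h1 : (List.range n).map (fun n => (s (n + 1)).getD n 0) = (s n).take n := by
    apply List.ext_getElem
    · have := hlen n
      rw [List.length_map, List.length_range, List.length_take]
      omega
    · intro i hi1 hi2
      rw [List.length_map, List.length_range] at hi1
      rw [List.getElem_map, List.getElem_range, List.getElem_take]
      have h2 : i < (s (i + 1)).length := by
        have := hlen (i + 1)
        omega
      show (s (i + 1)).getD i 0 = _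
      rw [List.getD_eq_getElem _ _ h2]
      exact (hpre (i + 1) n (by omega)).getElem h2
  rw [h1]
  exact hT _ (hs n) _ (List.take_prefix _ _)

end Pool.Agent.H59.PM
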