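import Pool.Agent.H59.PM.Defs

/-!
# Module Basic (PM): representatives, topological group
-/

set_option autoImplicit false

open MeasureTheory Filter Topology
open scoped symmDiff

namespace Pool.Agent.H59.PM

/-- the class of an automorphism -/
def mk (T : BAut) : Aut01 := (QuotientGroup.mk T : BAut ⧸ nullAut)

theorem ae_comp (T : BAut) {P : unitInterval → Prop} (h : ∀ᵐ p : unitInterval, P p) :
    ∀ᵐ p : unitInterval, P (T.1 p) :=
  T.2.1.quasiMeasurePreserving.ae h

theorem ae_comp_symm (T : BAut) {P : unitInterval → Prop} (h : ∀ᵐ p : unitInterval, P p) :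
    ∀ᵐ p : unitInterval, P (T.1.symm p) :=
  T.2.2.quasiMeasurePreserving.ae h

theorem mk_rep (T : Aut01) : mk (rep T) = T := Quotient.out_eq T

theorem mk_eq_iff {S T : BAut} : mk S = mk T ↔ ∀ᵐ p : unitInterval, S.1 p = T.1 p := by
  have h0 : mk S = mk T ↔ S⁻¹ * T ∈ nullAut := QuotientGroup.eq
  rw [h0]
  have h1 : S⁻¹ * T ∈ nullAut ↔ ∀ᵐ p : unitInterval, S.1.symm (T.1 p) = p := Iff.rfl
  rw [h1]
  constructor
  · intro h
    filter_upwards [h] with p hp
    have h2 := congrArg S.1 hp
    rw [S.1.apply_symm_apply] at h2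
    exact h2.symm
  · intro h
    filter_upwards [h] with p hp
    rw [← hp, S.1.symm_apply_apply]

theorem rep_mk (T : BAut) : ∀ᵐ p : unitInterval, (rep (mk T)).1 p = T.1 p :=
  mk_eq_iff.1 (mk_rep (mk T))

theorem eq_iff {S T : Aut01} : S = T ↔ ∀ᵐ p : unitInterval, (rep S).1 p = (rep T).1 p := by
  conv_lhs => rw [← mk_rep S, ← mk_rep T]
  exact mk_eq_iff

/-- if `S = T` a.e. then `S⁻¹ = T⁻¹` a.e. -/
theorem symm_ae {S T : BAut} (h : ∀ᵐ p : unitInterval, S.1 p = T.1 p) :
    ∀ᵐ p : unitInterval, S.1.symm p = T.1.symm p := by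
  have h1 := ae_comp_symm T h
  filter_upwards [h1] with p hp
  rw [T.1.apply_symm_apply] at hp
  rw [← hp, S.1.symm_apply_apply, hp]

theorem rep_mk_symm (T : BAut) : ∀ᵐ p : unitInterval, (rep (mk T)).1.symm p = T.1.symm p :=
  symm_ae (rep_mk T)

theorem mk_mul (S T : BAut) : mk (S * T) = mk S * mk T := rfl

theorem mk_inv (T : BAut) : mk T⁻¹ = (mk T)⁻¹ := rfl

theorem mk_one : mk 1 = 1 := rfl

theorem rep_mul (S T : Aut01) :
    ∀ᵐ p : unitInterval, (rep (S * T)).1 p = (rep S).1 ((rep T).1 p) := by
  have h := rep_mk (rep S * rep T)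
  rw [mk_mul, mk_rep, mk_rep] at h
  exact h

theorem rep_mul_symm (S T : Aut01) :
    ∀ᵐ p : unitInterval, (rep (S * T)).1.symm p = (rep T).1.symm ((rep S).1.symm p) := by
  have h := rep_mk_symm (rep S * rep T)
  rw [mk_mul, mk_rep, mk_rep] at h
  exact h

theorem rep_inv (T : Aut01) : ∀ᵐ p : unitInterval, (rep T⁻¹).1 p = (rep T).1.symm p := by
  have h := rep_mk (rep T)⁻¹
  rw [mk_inv, mk_rep] at h
  exact h

theorem rep_inv_symm (T : Aut01) : ∀ᵐ p : unitInterval, (rep T⁻¹).1.symm p = (rep T).1 p := by
  have h := rep_mk_symm (rep T)⁻¹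
  rw [mk_inv, mk_rep] at h
  exact h

theorem rep_one : ∀ᵐ p : unitInterval, (rep 1).1 p = p := by
  have h := rep_mk 1
  rw [mk_one] at h
  exact h

theorem coe_img (T : Aut01) (A : MeasuredSets (volume : Measure unitInterval)) :
    (img T A : Set unitInterval) = (rep T).1.symm ⁻¹' (A : Set unitInterval) := rfl

/-- a.e. equal sets have distance 0 -/
theorem edist_eq_zero' {A B : MeasuredSets (volume : Measure unitInterval)}
    (h : ∀ᵐ p : unitInterval, p ∈ (A : Set unitInterval) ↔ p ∈ (B : Set unitInterval)) :
    edist A B = 0 := by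
  rw [MeasuredSets.edist_def, measure_symmDiff_eq_zero_iff]
  exact Filter.eventuallyEq_set.2 h

theorem edist_img_img (T : Aut01) (A B : MeasuredSets (volume : Measure unitInterval)) :
    edist (img T A) (img T B) = edist A B := by
  rw [MeasuredSets.edist_def, MeasuredSets.edist_def, coe_img, coe_img, ← Set.preimage_symmDiff]
  exact (rep T).2.2.measure_preimage (A.2.symmDiff B.2).nullMeasurableSet

theorem edist_img_mul (S T : Aut01) (A : MeasuredSets (volume : Measure unitInterval)) :
    edist (img (S * T) A) (img S (img T A)) = 0 := by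
  apply edist_eq_zero'
  filter_upwards [rep_mul_symm S T] with p hp
  rw [coe_img, coe_img, coe_img, Set.mem_preimage, hp]
  rfl

theorem edist_img_inv (T : Aut01) (A : MeasuredSets (volume : Measure unitInterval)) :
    edist (img T (img T⁻¹ A)) A = 0 := by
  apply edist_eq_zero'
  have h := ae_comp_symm (rep T) (rep_inv_symm T)
  filter_upwards [h] with p hp
  rw [coe_img, coe_img, Set.mem_preimage, Set.mem_preimage, hp, (rep T).1.apply_symm_apply]

theorem continuous_img (A : MeasuredSets (volume : Measure unitInterval)) :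
    Continuous fun T : Aut01 => img T A := by
  have h : Continuous (img : Aut01 → MeasuredSets (volume : Measure unitInterval) →
    MeasuredSets (volume : Measure unitInterval)) := continuous_induced_dom
  exact (continuous_apply A).comp h

theorem tendsto_edist_img (A : MeasuredSets (volume : Measure unitInterval)) (T : Aut01) :
    Tendsto (fun S : Aut01 => edist (img S A) (img T A)) (𝓝 T) (𝓝 0) := by
  have h := (continuous_img A).tendsto T
  rw [tendsto_iff_edist_tendsto_0] at h
  exact h

/-- continuity criterion -/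
theorem continuous_of {X : Type*} [TopologicalSpace X] {f : X → Aut01}
    (h : ∀ (A : MeasuredSets (volume : Measure unitInterval)) (x : X),
      Tendsto (fun y => edist (img (f y) A) (img (f x) A)) (𝓝 x) (𝓝 0)) : Continuous f := by
  refine continuous_induced_rng.2 (continuous_pi fun A => ?_)
  refine continuous_iff_continuousAt.2 fun x => ?_
  show Tendsto _ _ _
  rw [tendsto_iff_edist_tendsto_0]
  exact h A x

instance : ContinuousMul Aut01 where
  continuous_mul := by
    refine continuous_of fun A => ?_
    rintro ⟨S, T⟩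
    have h1 : Tendsto (fun q : Aut01 × Aut01 => edist (img q.2 A) (img T A) +
        edist (img q.1 (img T A)) (img S (img T A))) (𝓝 (S, T)) (𝓝 (0 + 0)) := by
      refine Tendsto.add ?_ ?_
      · exact (tendsto_edist_img A T).comp (continuous_snd.tendsto (S, T))
      · exact (tendsto_edist_img (img T A) S).comp (continuous_fst.tendsto (S, T))
    rw [add_zero] at h1
    refine tendsto_of_tendsto_of_tendsto_of_le_of_le tendsto_const_nhds h1
      (fun _ => zero_le) fun q => ?_
    show edist (img (q.1 * q.2) A) (img (S * T) A) ≤ _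
    calc edist (img (q.1 * q.2) A) (img (S * T) A)
        ≤ edist (img (q.1 * q.2) A) (img q.1 (img q.2 A)) + edist (img q.1 (img q.2 A)) (img (S * T) A) :=
          edist_triangle _ _ _
      _ ≤ edist (img (q.1 * q.2) A) (img q.1 (img q.2 A)) +
          (edist (img q.1 (img q.2 A)) (img q.1 (img T A)) +
          (edist (img q.1 (img T A)) (img S (img T A)) + edist (img S (img T A)) (img (S * T) A))) := by
          refine add_le_add le_rfl ((edist_triangle _ (img q.1 (img T A)) _).trans ?_)
          exact add_le_add le_rfl (edist_triangle _ _ _)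
      _ = edist (img q.2 A) (img T A) + edist (img q.1 (img T A)) (img S (img T A)) := by
          rw [edist_img_mul, edist_img_img, edist_comm (img S (img T A)), edist_img_mul, zero_add, add_zero]

instance : ContinuousInv Aut01 where
  continuous_inv := by
    refine continuous_of fun A T => ?_
    refine tendsto_of_tendsto_of_tendsto_of_le_of_le tendsto_const_nhds
      (tendsto_edist_img (img T⁻¹ A) T) (fun _ => zero_le) fun S => ?_
    show edist (img S⁻¹ A) (img T⁻¹ A) ≤ edist (img S (img T⁻¹ A)) (img T (img T⁻¹ A))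
    calc edist (img S⁻¹ A) (img T⁻¹ A) = edist (img S (img S⁻¹ A)) (img S (img T⁻¹ A)) :=
          (edist_img_img S _ _).symm
      _ ≤ edist (img S (img S⁻¹ A)) A + (edist A (img T (img T⁻¹ A)) +
          edist (img T (img T⁻¹ A)) (img S (img T⁻¹ A))) := by
          refine (edist_triangle _ A _).trans ?_
          exact add_le_add le_rfl (edist_triangle _ _ _)
      _ = edist (img S (img T⁻¹ A)) (img T (img T⁻¹ A)) := by
          rw [edist_img_inv, edist_comm A, edist_img_inv, zero_add, zero_add, edist_comm]

instance : IsTopologicalGroup Aut01 where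

end Pool.Agent.H59.PM
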