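import Pool.Agent.H59.PM.Polish

/-!
# Module Bor (PM): the measure of the set where sequences of automorphisms differ is a Borel function
-/

set_option autoImplicit false

open MeasureTheory Filter Topology
open scoped symmDiff

namespace Pool.Agent.H59.PM

/-- the preimage of a Borel set -/
noncomputable def pre (T : Aut01) (A : MeasuredSets (volume : Measure unitInterval)) :
    MeasuredSets (volume : Measure unitInterval) :=
  ⟨(rep T).1 ⁻¹' (A : Set unitInterval), (rep T).2.1.measurable A.2⟩

theorem edist_pre (S T : Aut01) (A : MeasuredSets (volume : Measure unitInterval)) :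
    edist (pre S A) (pre T A) ≤ edist (img S⁻¹ A) (img T⁻¹ A) := by
  have h : ∀ R : Aut01, edist (pre R A) (img R⁻¹ A) = 0 := by
    intro R
    apply edist_eq_zero'
    filter_upwards [rep_inv_symm R] with p hp
    rw [coe_img, Set.mem_preimage, hp]
    rfl
  calc edist (pre S A) (pre T A) ≤ edist (pre S A) (img S⁻¹ A) + (edist (img S⁻¹ A) (img T⁻¹ A) +
        edist (img T⁻¹ A) (pre T A)) :=
        (edist_triangle _ _ _).trans (add_le_add le_rfl (edist_triangle _ _ _))
    _ = edist (img S⁻¹ A) (img T⁻¹ A) := by
        rw [h S, edist_comm (img T⁻¹ A) (pre T A), h T, zero_add, add_zero]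

theorem continuous_pre (A : MeasuredSets (volume : Measure unitInterval)) :
    Continuous fun T : Aut01 => pre T A := by
  refine continuous_iff_continuousAt.2 fun T => ?_
  show Tendsto _ _ _
  rw [tendsto_iff_edist_tendsto_0]
  have h := (tendsto_edist_img A T⁻¹).comp (continuous_inv.tendsto T)
  exact tendsto_of_tendsto_of_tendsto_of_le_of_le tendsto_const_nhds h (fun _ => zero_le)
    fun S => edist_pre S T A

/-- union -/
def mCup (A B : MeasuredSets (volume : Measure unitInterval)) : MeasuredSets (volume : Measure unitInterval) :=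
  ⟨(A : Set unitInterval) ∪ B, A.2.union B.2⟩

/-- intersection -/
def mCap (A B : MeasuredSets (volume : Measure unitInterval)) : MeasuredSets (volume : Measure unitInterval) :=
  ⟨(A : Set unitInterval) ∩ B, A.2.inter B.2⟩

/-- symmetric difference -/
def mSd (A B : MeasuredSets (volume : Measure unitInterval)) : MeasuredSets (volume : Measure unitInterval) :=
  ⟨(A : Set unitInterval) ∆ B, A.2.symmDiff B.2⟩

theorem edist_op_le {A B C D A' B' : Set unitInterval}
    (h : A' ∆ B' ⊆ A ∆ C ∪ B ∆ D) :
    (volume : Measure unitInterval) (A' ∆ B') ≤ volume (A ∆ C) + volume (B ∆ D) :=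
  (measure_mono h).trans (measure_union_le _ _)

theorem continuous_op {X : Type*} [TopologicalSpace X]
    {op : MeasuredSets (volume : Measure unitInterval) → MeasuredSets (volume : Measure unitInterval) →
      MeasuredSets (volume : Measure unitInterval)}
    (hop : ∀ A B C D, (op A B : Set unitInterval) ∆ (op C D) ⊆
      (A : Set unitInterval) ∆ C ∪ (B : Set unitInterval) ∆ D)
    {U V : X → MeasuredSets (volume : Measure unitInterval)} (hU : Continuous U) (hV : Continuous V) :
    Continuous fun x => op (U x) (V x) := by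
  refine continuous_iff_continuousAt.2 fun x => ?_
  show Tendsto _ _ _
  rw [tendsto_iff_edist_tendsto_0]
  have h1 := tendsto_iff_edist_tendsto_0.1 (hU.tendsto x)
  have h2 := tendsto_iff_edist_tendsto_0.1 (hV.tendsto x)
  have h3 := h1.add h2
  rw [add_zero] at h3
  exact tendsto_of_tendsto_of_tendsto_of_le_of_le tendsto_const_nhds h3 (fun _ => zero_le)
    fun y => edist_op_le (hop _ _ _ _)

theorem continuous_mCup {X : Type*} [TopologicalSpace X]
    {U V : X → MeasuredSets (volume : Measure unitInterval)} (hU : Continuous U) (hV : Continuous V) :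
    Continuous fun x => mCup (U x) (V x) := by
  refine continuous_op (fun A B C D => ?_) hU hV
  show ((A : Set unitInterval) ∪ B) ∆ ((C : Set unitInterval) ∪ D) ⊆ _
  intro p
  simp only [Set.mem_symmDiff, Set.mem_union]
  tauto

theorem continuous_mCap {X : Type*} [TopologicalSpace X]
    {U V : X → MeasuredSets (volume : Measure unitInterval)} (hU : Continuous U) (hV : Continuous V) :
    Continuous fun x => mCap (U x) (V x) := by
  refine continuous_op (fun A B C D => ?_) hU hV
  show ((A : Set unitInterval) ∩ B) ∆ ((C : Set unitInterval) ∩ D) ⊆ _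
  intro p
  simp only [Set.mem_symmDiff, Set.mem_union, Set.mem_inter_iff]
  tauto

theorem continuous_mSd {X : Type*} [TopologicalSpace X]
    {U V : X → MeasuredSets (volume : Measure unitInterval)} (hU : Continuous U) (hV : Continuous V) :
    Continuous fun x => mSd (U x) (V x) := by
  refine continuous_op (fun A B C D => ?_) hU hV
  show ((A : Set unitInterval) ∆ B) ∆ ((C : Set unitInterval) ∆ D) ⊆ _
  intro p
  simp only [Set.mem_symmDiff, Set.mem_union]
  tauto

/-- finite intersections -/
def capN (f : ℕ → MeasuredSets (volume : Measure unitInterval)) : ℕ → MeasuredSets (volume : Measure unitInterval)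
  | 0 => ⟨Set.univ, MeasurableSet.univ⟩
  | n + 1 => mCap (capN f n) (f n)

/-- finite unions -/
def cupN (f : ℕ → MeasuredSets (volume : Measure unitInterval)) : ℕ → MeasuredSets (volume : Measure unitInterval)
  | 0 => ⟨∅, MeasurableSet.empty⟩
  | n + 1 => mCup (cupN f n) (f n)

theorem mem_capN (f : ℕ → MeasuredSets (volume : Measure unitInterval)) (n : ℕ) (p : unitInterval) :
    p ∈ (capN f n : Set unitInterval) ↔ ∀ k < n, p ∈ (f k : Set unitInterval) := by
  induction n with
  | zero => exact ⟨fun _ k hk => absurd hk (Nat.not_lt_zero k), fun _ => trivial⟩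
  | succ n ih =>
    have h : p ∈ (capN f (n + 1) : Set unitInterval) ↔ p ∈ (capN f n : Set unitInterval) ∧
      p ∈ (f n : Set unitInterval) := Iff.rfl
    rw [h, ih]
    constructor
    · rintro ⟨h1, h2⟩ k hk
      rcases Nat.lt_succ_iff_lt_or_eq.1 hk with h3 | h3
      · exact h1 k h3
      · rw [h3]; exact h2
    · intro h1
      exact ⟨fun k hk => h1 k (hk.trans (Nat.lt_succ_self n)), h1 n (Nat.lt_succ_self n)⟩

theorem mem_cupN (f : ℕ → MeasuredSets (volume : Measure unitInterval)) (n : ℕ) (p : unitInterval) :
    p ∈ (cupN f n : Set unitInterval) ↔ ∃ k < n, p ∈ (f k : Set unitInterval) := by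
  induction n with
  | zero => exact ⟨fun h => absurd h (Set.notMem_empty p), fun ⟨k, hk, _⟩ => absurd hk (Nat.not_lt_zero k)⟩
  | succ n ih =>
    have h : p ∈ (cupN f (n + 1) : Set unitInterval) ↔ p ∈ (cupN f n : Set unitInterval) ∨
      p ∈ (f n : Set unitInterval) := Iff.rfl
    rw [h, ih]
    constructor
    · rintro (⟨k, h1, h2⟩ | h2)
      · exact ⟨k, h1.trans (Nat.lt_succ_self n), h2⟩
      · exact ⟨n, Nat.lt_succ_self n, h2⟩
    · rintro ⟨k, hk, h2⟩
      rcases Nat.lt_succ_iff_lt_or_eq.1 hk with h3 | h3
      · exact Or.inl ⟨k, h3, h2⟩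
      · rw [h3] at h2; exact Or.inr h2

theorem continuous_capN {X : Type*} [TopologicalSpace X]
    {U : ℕ → X → MeasuredSets (volume : Measure unitInterval)} (hU : ∀ k, Continuous (U k)) (n : ℕ) :
    Continuous fun x => capN (fun k => U k x) n := by
  induction n with
  | zero => exact continuous_const
  | succ n ih => exact continuous_mCap ih (hU n)

theorem continuous_cupN {X : Type*} [TopologicalSpace X]
    {U : ℕ → X → MeasuredSets (volume : Measure unitInterval)} (hU : ∀ k, Continuous (U k)) (n : ℕ) :
    Continuous fun x => cupN (fun k => U k x) n := by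
  induction n with
  | zero => exact continuous_const
  | succ n ih => exact continuous_mCup ih (hU n)

/-- an enumeration of the rational numbers -/
noncomputable def rat (n : ℕ) : ℝ := ((Denumerable.ofNat ℚ n : ℚ) : ℝ)

theorem exists_rat_between {x y : ℝ} (h : x < y) : ∃ n, x < rat n ∧ rat n < y := by
  obtain ⟨q, h1, h2⟩ := exists_rat_btwn h
  obtain ⟨n, hn⟩ := (Denumerable.eqv ℚ).symm.surjective q
  refine ⟨n, ?_⟩
  have h3 : rat n = (q : ℝ) := by
    unfold rat
    rw [← hn]
    rfl
  rw [h3]
  exact ⟨h1, h2⟩

/-- the set where `S` and `T` are separated by the `n`-th rational number -/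
noncomputable def sep (S T : Aut01) (n : ℕ) : MeasuredSets (volume : Measure unitInterval) :=
  mSd (pre S (upSet (rat n))) (pre T (upSet (rat n)))

theorem ne_iff_sep (S T : Aut01) (p : unitInterval) :
    (rep S).1 p ≠ (rep T).1 p ↔ ∃ n, p ∈ (sep S T n : Set unitInterval) := by
  have h0 : ∀ n, p ∈ (sep S T n : Set unitInterval) ↔
      (rat n ≤ ((rep S).1 p : ℝ) ∧ ¬ rat n ≤ ((rep T).1 p : ℝ)) ∨
      (rat n ≤ ((rep T).1 p : ℝ) ∧ ¬ rat n ≤ ((rep S).1 p : ℝ)) := fun n => Iff.rfl
  simp only [h0]
  constructor
  · intro h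
    have h' : ((rep S).1 p : ℝ) ≠ ((rep T).1 p : ℝ) := fun h2 => h (Subtype.ext h2)
    rcases lt_or_gt_of_ne h' with h1 | h1
    · obtain ⟨n, h2, h3⟩ := exists_rat_between h1
      exact ⟨n, Or.inr ⟨h3.le, not_le.2 h2⟩⟩
    · obtain ⟨n, h2, h3⟩ := exists_rat_between h1
      exact ⟨n, Or.inl ⟨h3.le, not_le.2 h2⟩⟩
  · rintro ⟨n, h | h⟩ he
    · rw [he] at h
      exact h.2 h.1
    · rw [he] at h
      exact h.2 h.1

theorem measurable_sep {X : Type*} [TopologicalSpace X] [MeasurableSpace X] [OpensMeasurableSpace X]
    (S T : ℕ → X → Aut01) (hS : ∀ k, Continuous (S k)) (hT : ∀ k, Continuous (T k)) :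
    Measurable fun x => (volume : Measure unitInterval)
      {p | ∀ k, (rep (S k x)).1 p ≠ (rep (T k x)).1 p} := by
  set F : ℕ → ℕ → X → MeasuredSets (volume : Measure unitInterval) := fun J N x =>
    capN (fun k => cupN (fun n => sep (S k x) (T k x) n) N) J with hF
  have hc : ∀ J N, Continuous (F J N) := by
    intro J N
    refine continuous_capN (U := fun k x => cupN (fun n => sep (S k x) (T k x) n) N) (fun k => ?_) J
    refine continuous_cupN (U := fun n x => sep (S k x) (T k x) n) (fun n => ?_) N
    exact continuous_mSd ((continuous_pre _).comp (hS k)) ((continuous_pre _).comp (hT k))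
  have hm : ∀ J N, Measurable fun x => (volume : Measure unitInterval) (F J N x : Set unitInterval) :=
    fun J N => (MeasuredSets.continuous_measure.comp (hc J N)).measurable
  have key : ∀ x, (volume : Measure unitInterval) {p | ∀ k, (rep (S k x)).1 p ≠ (rep (T k x)).1 p} =
      ⨅ J, ⨆ N, (volume : Measure unitInterval) (F J N x : Set unitInterval) := by
    intro x
    have hmem : ∀ J N p, p ∈ (F J N x : Set unitInterval) ↔
        ∀ k < J, ∃ n < N, p ∈ (sep (S k x) (T k x) n : Set unitInterval) := by
      intro J N p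
      rw [hF, mem_capN]
      simp only [mem_cupN]
    have hmono : ∀ J, Monotone fun N => (F J N x : Set unitInterval) := by
      intro J N N' hN p hp
      rw [hmem] at hp ⊢
      intro k hk
      obtain ⟨n, h1, h2⟩ := hp k hk
      exact ⟨n, h1.trans_le hN, h2⟩
    have hU : ∀ J, (⋃ N, (F J N x : Set unitInterval)) =
        {p | ∀ k < J, ∃ n, p ∈ (sep (S k x) (T k x) n : Set unitInterval)} := by
      intro J
      ext p
      rw [Set.mem_iUnion]
      constructor
      · rintro ⟨N, h⟩ k hk
        obtain ⟨n, _, h2⟩ := (hmem J N p).1 h k hk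
        exact ⟨n, h2⟩
      · intro h
        have h3 : ∀ k, ∃ n, k < J → p ∈ (sep (S k x) (T k x) n : Set unitInterval) := by
          intro k
          by_cases hk : k < J
          · obtain ⟨n, hn⟩ := h k hk
            exact ⟨n, fun _ => hn⟩
          · exact ⟨0, fun h => absurd h hk⟩
        choose g hg using h3
        refine ⟨(Finset.range J).sup g + 1, (hmem _ _ _).2 fun k hk => ⟨g k, ?_, hg k hk⟩⟩
        exact Nat.lt_succ_of_le (Finset.le_sup (f := g) (Finset.mem_range.2 hk))
    have hV : {p | ∀ k, (rep (S k x)).1 p ≠ (rep (T k x)).1 p} = ⋂ J, ⋃ N, (F J N x : Set unitInterval) := by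
      ext p
      simp only [Set.mem_iInter, hU]
      constructor
      · intro h J k _
        exact (ne_iff_sep _ _ _).1 (h k)
      · intro h k
        exact (ne_iff_sep _ _ _).2 (h (k + 1) k (Nat.lt_succ_self k))
    have hanti : Antitone fun J => ⋃ N, (F J N x : Set unitInterval) := by
      intro J J' hJ p hp
      simp only [hU] at hp ⊢
      exact fun k hk => hp k (hk.trans_le hJ)
    rw [hV, Antitone.measure_iInter hanti (fun J => (MeasurableSet.iUnion fun N =>
      (F J N x).2).nullMeasurableSet) ⟨0, measure_ne_top _ _⟩]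
    congr 1
    funext J
    exact (hmono J).measure_iUnion
  simp_rw [key]
  exact Measurable.iInf fun J => Measurable.iSup fun N => hm J N

end Pool.Agent.H59.PM
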