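import Mathlib

/-!
# Project PM: measurable perfect matchings in Schreier graphs (MP_f28b16_lc): definitions

`BAut` is the group of all bijections `T` of the unit interval such that `T` and `T⁻¹` are Borel and preserve Lebesgue
measure; `Aut01` is its quotient by the automorphisms which are almost everywhere the identity. `Aut01` carries the
weak topology (the coarsest topology such that `T ↦ T(A)` is continuous for every Borel set `A`, for the
pseudometric `λ(A ∆ B)` on Borel sets: `MeasureTheory.MeasuredSets`; so `T_n → T` iff `λ(T_n(A) ∆ T(A)) → 0` for all
Borel sets `A`). `Act` is the space of homomorphisms from the free group on `γ_0, γ_1, …` to `Aut01` with the topology of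
pointwise convergence.
-/

set_option autoImplicit false

open MeasureTheory

namespace Pool.Agent.H59.PM

/-- Borel automorphisms of `[0,1]` which preserve Lebesgue measure -/
def BAut : Subgroup (Equiv.Perm unitInterval) where
  carrier := {T | MeasurePreserving T volume volume ∧ MeasurePreserving T.symm volume volume}
  mul_mem' := fun hS hT => ⟨hS.1.comp hT.1, hT.2.comp hS.2⟩
  one_mem' := ⟨MeasurePreserving.id _, MeasurePreserving.id _⟩
  inv_mem' := fun hT => ⟨hT.2, hT.1⟩

/-- the automorphisms which are almost everywhere equal to the identity -/
def nullAut : Subgroup BAut where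
  carrier := {T | ∀ᵐ p : unitInterval, T.1 p = p}
  mul_mem' := by
    intro S T hS hT
    have h := T.2.1.quasiMeasurePreserving.ae (p := fun p => S.1 p = p) hS
    have h2 : ∀ᵐ p : unitInterval, (S * T).1 p = p := by
      filter_upwards [h, hT] with p h1 h2
      show S.1 (T.1 p) = p
      rw [h1, h2]
    exact h2
  one_mem' := by
    have h : ∀ᵐ p : unitInterval, ((1 : BAut) : Equiv.Perm unitInterval) p = p :=
      Filter.Eventually.of_forall fun _ => rfl
    exact h
  inv_mem' := by
    intro T hT
    have h := T.2.2.quasiMeasurePreserving.ae (p := fun p => T.1 p = p) hT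
    have h3 : ∀ᵐ p : unitInterval, (T⁻¹).1 p = p := by
      filter_upwards [h] with p h1
      show T.1.symm p = p
      rw [← h1, T.1.apply_symm_apply]
    exact h3

instance : nullAut.Normal where
  conj_mem := by
    intro T hT S
    have h := S.2.2.quasiMeasurePreserving.ae (p := fun p => T.1 p = p) hT
    have h3 : ∀ᵐ p : unitInterval, (S * T * S⁻¹).1 p = p := by
      filter_upwards [h] with p h1
      show S.1 (T.1 (S.1.symm p)) = p
      rw [h1, S.1.apply_symm_apply]
    exact h3

/-- the group of measure preserving automorphisms of `([0,1], λ)`, with two automorphisms identified when they agree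
almost everywhere -/
def Aut01 : Type := BAut ⧸ nullAut

instance : Group Aut01 := inferInstanceAs (Group (BAut ⧸ nullAut))

/-- a Borel representative -/
noncomputable def rep (T : Aut01) : BAut := Quotient.out T

/-- the image of a Borel set under (a Borel representative of) `T` -/
noncomputable def img (T : Aut01) (A : MeasuredSets (volume : Measure unitInterval)) :
    MeasuredSets (volume : Measure unitInterval) :=
  ⟨(rep T).1.symm ⁻¹' (A : Set unitInterval), (rep T).2.2.measurable A.2⟩

/-- the weak topology on `Aut01`: the topology of pointwise convergence of the maps `A ↦ T(A)` on Borel sets, with the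
pseudometric `λ(A ∆ B)` -/
noncomputable instance weakTop : TopologicalSpace Aut01 :=
  TopologicalSpace.induced img Pi.topologicalSpace

/-- the space of measure preserving actions of the free group on `γ_0, γ_1, …` on `([0,1], λ)` -/
abbrev Act : Type := FreeGroup ℕ →* Aut01

/-- the topology of `Act`: pointwise convergence -/
noncomputable instance actTop : TopologicalSpace Act :=
  TopologicalSpace.induced (fun (x : Act) (w : FreeGroup ℕ) => x w) Pi.topologicalSpace

/-- a Borel representative of the `i`-th generator -/
noncomputable def gen (x : Act) (i : ℕ) : Equiv.Perm unitInterval := (rep (x (FreeGroup.of i))).1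

/-- adjacency in the Schreier graph -/
def Adj (x : Act) (p q : unitInterval) : Prop :=
  p ≠ q ∧ ∃ i, q = gen x i p ∨ q = (gen x i).symm p

/-- `Sch x` has a measurable perfect matching -/
def HasMatching (x : Act) : Prop :=
  ∃ E : Set (unitInterval × unitInterval), MeasurableSet E ∧
    (∀ p q, (p, q) ∈ E → (q, p) ∈ E ∧ Adj x p q) ∧ ∀ᵐ p : unitInterval, ∃! q, (p, q) ∈ E

/-- the set of the actions whose Schreier graph has a measurable perfect matching -/
def Matched : Set Act := {x | HasMatching x}

/-- `A` is a `Σ^1_1`-complete subset of the Polish space `X`: it is analytic and every analytic subset of a Polish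
space is the preimage of `A` under a Borel map -/
def SigmaComplete.{u} {X : Type} [TopologicalSpace X] (A : Set X) : Prop :=
  PolishSpace X ∧ AnalyticSet A ∧
    ∀ (Y : Type u) [TopologicalSpace Y] [PolishSpace Y] (B : Set Y), AnalyticSet B →
      ∃ f : Y → X, @Measurable Y X (borel Y) (borel X) f ∧ B = f ⁻¹' A

end Pool.Agent.H59.PM
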