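import Pool.Agent.H59.PM.Basic

/-!
# Module Digits (PM): binary digits of a number in `[0,1)` and the maps which change one digit
-/

set_option autoImplicit false

open MeasureTheory Filter Topology

namespace Pool.Agent.H59.PM

/-- the `k`-th binary digit -/
noncomputable def dig (k : ℕ) (p : unitInterval) : ℕ := ⌊(2 : ℝ) ^ (k + 1) * p⌋₊ % 2

theorem dig_lt (k : ℕ) (p : unitInterval) : dig k p = 0 ∨ dig k p = 1 := by
  unfold dig
  omega

theorem measurable_dig (k : ℕ) : Measurable (dig k) := by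
  have h1 : Measurable fun p : unitInterval => ⌊(2 : ℝ) ^ (k + 1) * p⌋₊ :=
    Nat.measurable_floor.comp (measurable_const.mul measurable_subtype_coe)
  exact (measurable_from_top (f := fun n : ℕ => n % 2)).comp h1

/-- change the `k`-th digit of `p < 1` -/
noncomputable def flip (k : ℕ) (p : unitInterval) : unitInterval :=
  if (p : ℝ) < 1 then
    (if dig k p = 0 then Set.projIcc 0 1 zero_le_one ((p : ℝ) + 1 / 2 ^ (k + 1))
      else Set.projIcc 0 1 zero_le_one ((p : ℝ) - 1 / 2 ^ (k + 1)))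
  else p

theorem measurable_flip (k : ℕ) : Measurable (flip k) := by
  unfold flip
  refine Measurable.ite (measurableSet_lt measurable_subtype_coe measurable_const) (Measurable.ite ?_ ?_ ?_)
    measurable_id
  · exact measurable_dig k (measurableSet_singleton 0)
  · exact continuous_projIcc.measurable.comp (measurable_subtype_coe.add measurable_const)
  · exact continuous_projIcc.measurable.comp (measurable_subtype_coe.sub measurable_const)

theorem floor_bounds (k : ℕ) {p : unitInterval} (hp : (p : ℝ) < 1) :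
    ⌊(2 : ℝ) ^ (k + 1) * p⌋₊ < 2 ^ (k + 1) := by
  rw [Nat.floor_lt (by have := p.2.1; positivity)]
  push_cast
  have h : (0 : ℝ) < 2 ^ (k + 1) := by positivity
  nlinarith

theorem flip_zero {k : ℕ} {p : unitInterval} (hp : (p : ℝ) < 1) (h : dig k p = 0) :
    (flip k p : ℝ) = (p : ℝ) + 1 / 2 ^ (k + 1) ∧ (flip k p : ℝ) < 1 := by
  have hk : (0 : ℝ) < 2 ^ (k + 1) := by positivity
  have h1 := floor_bounds k hp
  have h2 : ⌊(2 : ℝ) ^ (k + 1) * p⌋₊ + 2 ≤ 2 ^ (k + 1) := by
    unfold dig at h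
    have h3 : 2 ^ (k + 1) % 2 = 0 := by
      rw [pow_succ]
      omega
    omega
  have h3 : (⌊(2 : ℝ) ^ (k + 1) * p⌋₊ : ℝ) + 2 ≤ 2 ^ (k + 1) := by exact_mod_cast h2
  have h4 := Nat.lt_floor_add_one ((2 : ℝ) ^ (k + 1) * p)
  have h5 : (p : ℝ) + 1 / 2 ^ (k + 1) < 1 := by
    have h6 : (2 : ℝ) ^ (k + 1) * ((p : ℝ) + 1 / 2 ^ (k + 1)) < 2 ^ (k + 1) * 1 := by
      rw [mul_add, mul_one_div_cancel hk.ne']
      linarith
    exact lt_of_mul_lt_mul_left h6 hk.le
  have h7 : (flip k p : ℝ) = (p : ℝ) + 1 / 2 ^ (k + 1) := by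
    unfold flip
    rw [if_pos hp, if_pos h, Set.coe_projIcc, min_eq_right h5.le, max_eq_right]
    have := p.2.1
    positivity
  exact ⟨h7, by rw [h7]; exact h5⟩

theorem flip_one {k : ℕ} {p : unitInterval} (hp : (p : ℝ) < 1) (h : dig k p = 1) :
    (flip k p : ℝ) = (p : ℝ) - 1 / 2 ^ (k + 1) ∧ (flip k p : ℝ) < 1 := by
  have hk : (0 : ℝ) < 2 ^ (k + 1) := by positivity
  unfold dig at h
  have h2 : 1 ≤ ⌊(2 : ℝ) ^ (k + 1) * p⌋₊ := by omega
  have h3 : (1 : ℝ) ≤ (2 : ℝ) ^ (k + 1) * p := by
    have h4 := (Nat.one_le_floor_iff _).1 h2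
    exact h4
  have h5 : 0 ≤ (p : ℝ) - 1 / 2 ^ (k + 1) := by
    rw [sub_nonneg, div_le_iff₀ hk, mul_comm]
    exact h3
  have hk' : (0 : ℝ) < 1 / 2 ^ (k + 1) := by positivity
  have h7 : (flip k p : ℝ) = (p : ℝ) - 1 / 2 ^ (k + 1) := by
    unfold flip
    have h8 : ¬ dig k p = 0 := by
      unfold dig
      omega
    rw [if_pos hp, if_neg h8, Set.coe_projIcc, min_eq_right (by linarith), max_eq_right h5]
  exact ⟨h7, by rw [h7]; linarith⟩

theorem flip_lt (k : ℕ) {p : unitInterval} (hp : (p : ℝ) < 1) : (flip k p : ℝ) < 1 := by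
  rcases dig_lt k p with h | h
  · exact (flip_zero hp h).2
  · exact (flip_one hp h).2

theorem flip_not_lt (k : ℕ) {p : unitInterval} (hp : ¬ (p : ℝ) < 1) : flip k p = p := by
  unfold flip
  rw [if_neg hp]

/-- adding `2^-(k+1)` changes the digit 0 to the digit 1 and no other digit -/
theorem dig_add {k : ℕ} {p q : unitInterval} (h : dig k p = 0) (hq : (q : ℝ) = (p : ℝ) + 1 / 2 ^ (k + 1)) :
    dig k q = 1 ∧ ∀ j, j ≠ k → dig j q = dig j p := by
  have hp0 := p.2.1
  have key : ⌊(2 : ℝ) ^ (k + 1) * q⌋₊ = ⌊(2 : ℝ) ^ (k + 1) * p⌋₊ + 1 := by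
    rw [hq, mul_add, mul_one_div_cancel (by positivity), Nat.floor_add_one (by positivity)]
  constructor
  · unfold dig at h ⊢
    rw [key]
    omega
  · intro j hj
    rcases lt_or_gt_of_ne hj with hjk | hjk
    · -- smaller index
      have hfl : ∀ r : unitInterval, ⌊(2 : ℝ) ^ (j + 1) * r⌋₊ = ⌊(2 : ℝ) ^ (k + 1) * r⌋₊ / 2 ^ (k - j) := by
        intro r
        rw [← Nat.floor_div_natCast]
        congr 1
        have h1 : (2 : ℝ) ^ (k + 1) = 2 ^ (j + 1) * 2 ^ (k - j) := by
          rw [← pow_add]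
          congr 1
          omega
        push_cast
        rw [h1]
        field_simp
      unfold dig at h ⊢
      rw [hfl q, hfl p, key]
      have h2 : 2 ^ (k - j) = 2 * 2 ^ (k - j - 1) := by
        rw [← pow_succ']
        congr 1
        omega
      rw [h2, ← Nat.div_div_eq_div_mul, ← Nat.div_div_eq_div_mul]
      have h3 : (⌊(2 : ℝ) ^ (k + 1) * p⌋₊ + 1) / 2 = ⌊(2 : ℝ) ^ (k + 1) * p⌋₊ / 2 := by omega
      rw [h3]
    · have h1 : (2 : ℝ) ^ (j + 1) * q = (2 : ℝ) ^ (j + 1) * p + ((2 ^ (j - k) : ℕ) : ℝ) := by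
        rw [hq, mul_add]
        congr 1
        push_cast
        have h2 : (2 : ℝ) ^ (j + 1) = 2 ^ (j - k) * 2 ^ (k + 1) := by
          rw [← pow_add]
          congr 1
          omega
        rw [h2]
        field_simp
      unfold dig
      rw [h1, Nat.floor_add_natCast (by positivity)]
      have h2 : 2 ^ (j - k) = 2 * 2 ^ (j - k - 1) := by
        rw [← pow_succ']
        congr 1
        omega
      omega

theorem flip_flip (k : ℕ) (p : unitInterval) : flip k (flip k p) = p := by
  by_cases hp : (p : ℝ) < 1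
  · rcases dig_lt k p with h | h
    · have h1 := flip_zero hp h
      have h2 := dig_add h h1.1
      have h3 := flip_one h1.2 h2.1
      apply Subtype.ext
      rw [h3.1, h1.1]
      ring
    · have h1 := flip_one hp h
      have h0 : dig k (flip k p) = 0 := by
        unfold dig at h ⊢
        have hk : (0 : ℝ) < 2 ^ (k + 1) := by positivity
        have h2 : 1 ≤ ⌊(2 : ℝ) ^ (k + 1) * p⌋₊ := by omega
        rw [h1.1, mul_sub, mul_one_div_cancel hk.ne', Nat.floor_sub_one]
        omega
      have h3 := flip_zero h1.2 h0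
      apply Subtype.ext
      rw [h3.1, h1.1]
      ring
  · rw [flip_not_lt k hp, flip_not_lt k hp]

theorem dig_flip (k : ℕ) {p : unitInterval} (hp : (p : ℝ) < 1) :
    dig k (flip k p) = 1 - dig k p ∧ ∀ j, j ≠ k → dig j (flip k p) = dig j p := by
  rcases dig_lt k p with h | h
  · have h1 := flip_zero hp h
    have h2 := dig_add h h1.1
    rw [h]
    exact h2
  · have h1 := flip_one hp h
    have h0 : dig k (flip k p) = 0 := by
      unfold dig at h ⊢
      have hk : (0 : ℝ) < 2 ^ (k + 1) := by positivity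
      have h2 : 1 ≤ ⌊(2 : ℝ) ^ (k + 1) * p⌋₊ := by omega
      rw [h1.1, mul_sub, mul_one_div_cancel hk.ne', Nat.floor_sub_one]
      omega
    have h2 := dig_add (p := flip k p) (q := p) h0 (by rw [h1.1]; ring)
    rw [h, h0]
    exact ⟨rfl, fun j hj => (h2.2 j hj).symm⟩

theorem measurableSet_lt_one : MeasurableSet {p : unitInterval | (p : ℝ) < 1} :=
  measurableSet_lt measurable_subtype_coe measurable_const

theorem measurableSet_dig (k c : ℕ) : MeasurableSet {p : unitInterval | dig k p = c} :=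
  measurable_dig k (measurableSet_singleton c)

theorem ae_lt_one : ∀ᵐ p : unitInterval, (p : ℝ) < 1 := by
  have h : (volume : Measure unitInterval) {1} = 0 := measure_singleton 1
  filter_upwards [measure_eq_zero_iff_ae_notMem.1 h] with p hp
  refine lt_of_le_of_ne p.2.2 fun h1 => hp ?_
  exact Subtype.ext h1

private theorem flip_piece (k : ℕ) (A : Set unitInterval) :
    (volume : Measure unitInterval) (flip k ⁻¹' A ∩ {p | (p : ℝ) < 1 ∧ dig k p = 0}) =
      (volume : Measure unitInterval) (A ∩ {p | (p : ℝ) < 1 ∧ dig k p = 1}) := by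
  rw [unitInterval.volume_apply, unitInterval.volume_apply]
  have h1 : (Subtype.val '' (A ∩ {p : unitInterval | (p : ℝ) < 1 ∧ dig k p = 1}) : Set ℝ) =
      (fun x => x + 1 / 2 ^ (k + 1)) '' (Subtype.val '' (flip k ⁻¹' A ∩ {p | (p : ℝ) < 1 ∧ dig k p = 0})) := by
    ext x
    constructor
    · rintro ⟨q, ⟨hq1, hq2, hq3⟩, rfl⟩
      have h2 := flip_one hq2 hq3
      refine ⟨_, ⟨flip k q, ⟨?_, h2.2, ?_⟩, rfl⟩, ?_⟩
      · show flip k (flip k q) ∈ A
        rw [flip_flip]
        exact hq1
      · rw [(dig_flip k hq2).1, hq3]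
      · show (flip k q : ℝ) + 1 / 2 ^ (k + 1) = q
        rw [h2.1]
        ring
    · rintro ⟨_, ⟨p, ⟨hp1, hp2, hp3⟩, rfl⟩, rfl⟩
      have h2 := flip_zero hp2 hp3
      refine ⟨flip k p, ⟨hp1, h2.2, ?_⟩, h2.1⟩
      rw [(dig_flip k hp2).1, hp3]
  rw [h1, Set.image_add_right, measure_preimage_add_right]

theorem mp_flip (k : ℕ) : MeasurePreserving (flip k) volume volume := by
  refine ⟨measurable_flip k, Measure.ext fun A hA => ?_⟩
  rw [Measure.map_apply (measurable_flip k) hA]
  have hf := measurable_flip k hA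
  have hL := measurableSet_lt_one
  have h0 := measurableSet_dig k 0
  have split : ∀ C : Set unitInterval, MeasurableSet C → (volume : Measure unitInterval) C =
      volume (C ∩ {p | (p : ℝ) < 1 ∧ dig k p = 0}) + volume (C ∩ {p | (p : ℝ) < 1 ∧ dig k p = 1}) := by
    intro C hC
    rw [← measure_inter_add_sdiff C (hL.inter h0)]
    congr 1
    apply measure_congr
    filter_upwards [ae_lt_one] with p hp
    have h2 : (p ∈ C \ ({p : unitInterval | (p : ℝ) < 1} ∩ {p | dig k p = 0})) =
        (p ∈ C ∩ {p : unitInterval | (p : ℝ) < 1 ∧ dig k p = 1}) := by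
      rcases dig_lt k p with h | h
      · apply propext
        constructor
        · rintro ⟨_, h3⟩
          exact absurd ⟨hp, h⟩ h3
        · rintro ⟨_, _, h3⟩
          have h4 : dig k p = 1 := h3
          omega
      · apply propext
        constructor
        · rintro ⟨h3, _⟩
          exact ⟨h3, hp, h⟩
        · rintro ⟨h3, _⟩
          refine ⟨h3, fun h4 => ?_⟩
          have h5 : dig k p = 0 := h4.2
          omega
    exact h2
  have hff : flip k ⁻¹' (flip k ⁻¹' A) = A := by
    ext p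
    show flip k (flip k p) ∈ A ↔ p ∈ A
    rw [flip_flip]
  have h1 := flip_piece k A
  have h2 := flip_piece k (flip k ⁻¹' A)
  rw [hff] at h2
  rw [split _ hf, split _ hA, h1, ← h2, add_comm]

/-- the automorphism which changes the `k`-th digit -/
noncomputable def flipA (k : ℕ) : BAut :=
  ⟨⟨flip k, flip k, flip_flip k, flip_flip k⟩, mp_flip k, mp_flip k⟩

theorem flipA_apply (k : ℕ) (p : unitInterval) : (flipA k).1 p = flip k p := rfl

end Pool.Agent.H59.PM
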