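import Pool.Agent.H59.PM.Piece

/-!
# Module Gam (PM): the generators of the reduction

The nodes of the tree are the lists `s` of natural numbers; `idx s` is the position of the binary digit which belongs to
`s`, the digit 0 decides the side. `gam s` exchanges `Dset s` and `Eset s` and is the identity elsewhere.
-/

set_option autoImplicit false

open MeasureTheory Filter Topology

namespace Pool.Agent.H59.PM

/-- the position of the digit of the node `s` -/
def idx (s : List ℕ) : ℕ := Encodable.encode s + 1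

theorem idx_injective {s r : List ℕ} (h : idx s = idx r) : s = r := by
  unfold idx at h
  exact Encodable.encode_injective (by omega)

theorem idx_ne_zero (s : List ℕ) : idx s ≠ 0 := by
  unfold idx
  omega

/-- the positions of the digits which `gam s` changes -/
def pos (s : List ℕ) : List ℕ := 0 :: (List.range (s.length + 1)).map fun j => idx (s.take j)

theorem mem_pos {s : List ℕ} {k : ℕ} : k ∈ pos s ↔ k = 0 ∨ ∃ j ≤ s.length, k = idx (s.take j) := by
  unfold pos
  rw [List.mem_cons, List.mem_map]
  constructor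
  · rintro (h | ⟨j, h1, h2⟩)
    · exact Or.inl h
    · refine Or.inr ⟨j, ?_, h2.symm⟩
      have := List.mem_range.1 h1
      omega
  · rintro (h | ⟨j, h1, h2⟩)
    · exact Or.inl h
    · exact Or.inr ⟨j, List.mem_range.2 (by omega), h2.symm⟩

theorem idx_mem_pos {s r : List ℕ} : idx r ∈ pos s ↔ r <+: s := by
  rw [mem_pos]
  constructor
  · rintro (h | ⟨j, h1, h2⟩)
    · exact absurd h (idx_ne_zero r)
    · rw [idx_injective h2]
      exact List.take_prefix j s
  · intro h
    refine Or.inr ⟨r.length, h.length_le, ?_⟩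
    rw [← List.prefix_iff_eq_take.1 h]

theorem nodup_pos (s : List ℕ) : (pos s).Nodup := by
  unfold pos
  rw [List.nodup_cons]
  constructor
  · intro h
    obtain ⟨j, _, h2⟩ := List.mem_map.1 h
    exact idx_ne_zero _ h2
  · refine List.Nodup.map_on ?_ List.nodup_range
    intro j hj k hk h
    have h1 := List.mem_range.1 hj
    have h2 := List.mem_range.1 hk
    have h3 := congrArg List.length (idx_injective h)
    rw [List.length_take, List.length_take] at h3
    omega

/-- the set where the carry happens at the node `s` -/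
def Dset (s : List ℕ) : Set unitInterval :=
  {p | (p : ℝ) < 1 ∧ dig 0 p = 0 ∧ (∀ j < s.length, dig (idx (s.take j)) p = 1) ∧ dig (idx s) p = 0}

/-- the image of `Dset s` -/
def Eset (s : List ℕ) : Set unitInterval :=
  {p | (p : ℝ) < 1 ∧ dig 0 p = 1 ∧ (∀ j < s.length, dig (idx (s.take j)) p = 0) ∧ dig (idx s) p = 1}

theorem measurableSet_Dset (s : List ℕ) : MeasurableSet (Dset s) := by
  have h : Dset s = {p : unitInterval | (p : ℝ) < 1} ∩ ({p | dig 0 p = 0} ∩
      ((⋂ j ∈ Finset.range s.length, {p | dig (idx (s.take j)) p = 1}) ∩ {p | dig (idx s) p = 0})) := by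
    ext p
    simp only [Dset, Set.mem_inter_iff, Set.mem_iInter, Finset.mem_range]
    exact Iff.rfl
  rw [h]
  exact measurableSet_lt_one.inter ((measurableSet_dig _ _).inter
    ((Finset.measurableSet_biInter _ fun j _ => measurableSet_dig _ _).inter (measurableSet_dig _ _)))

theorem flips_Dset {s : List ℕ} {p : unitInterval} (hp : p ∈ Dset s) : (flips (pos s)).1 p ∈ Eset s := by
  obtain ⟨h0, h1, h2, h3⟩ := hp
  have hd := dig_flips (pos s) (nodup_pos s) h0
  refine ⟨flips_lt _ h0, ?_, fun j hj => ?_, ?_⟩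
  · rw [hd, if_pos (mem_pos.2 (Or.inl rfl)), h1]
  · rw [hd, if_pos (mem_pos.2 (Or.inr ⟨j, hj.le, rfl⟩)), h2 j hj]
  · rw [hd, if_pos (idx_mem_pos.2 (List.prefix_refl s)), h3]

theorem flips_symm_Eset {s : List ℕ} {p : unitInterval} (hp : p ∈ Eset s) :
    (flips (pos s)).1.symm p ∈ Dset s := by
  obtain ⟨h0, h1, h2, h3⟩ := hp
  have hd := dig_flips_symm (pos s) (nodup_pos s) h0
  refine ⟨flips_symm_lt _ h0, ?_, fun j hj => ?_, ?_⟩
  · rw [hd, if_pos (mem_pos.2 (Or.inl rfl)), h1]
  · rw [hd, if_pos (mem_pos.2 (Or.inr ⟨j, hj.le, rfl⟩)), h2 j hj]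
  · rw [hd, if_pos (idx_mem_pos.2 (List.prefix_refl s)), h3]

theorem not_mem_Dset_of_Eset {s r : List ℕ} {p : unitInterval} (hp : p ∈ Eset s) : p ∉ Dset r := by
  intro h
  have h1 := hp.2.1
  have h2 := h.2.1
  omega

/-- the generator of the node `s` -/
noncomputable def gam (s : List ℕ) : BAut :=
  swapA (flips (pos s)) (Dset s) (measurableSet_Dset s) fun _ hp => not_mem_Dset_of_Eset (flips_Dset hp)

theorem gam_apply (s : List ℕ) (p : unitInterval) : (gam s).1 p = swapFun (flips (pos s)) (Dset s) p := rfl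

theorem gam_symm (s : List ℕ) (p : unitInterval) : (gam s).1.symm p = (gam s).1 p := rfl

theorem gam_gam (s : List ℕ) (p : unitInterval) : (gam s).1 ((gam s).1 p) = p :=
  swapFun_swapFun (fun _ hp => not_mem_Dset_of_Eset (flips_Dset hp)) p

theorem gam_of_D {s : List ℕ} {p : unitInterval} (hp : p ∈ Dset s) : (gam s).1 p = (flips (pos s)).1 p := by
  rw [gam_apply, swapFun_of_mem hp]

theorem gam_mem_E {s : List ℕ} {p : unitInterval} (hp : p ∈ Dset s) : (gam s).1 p ∈ Eset s := by
  rw [gam_of_D hp]
  exact flips_Dset hp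

theorem gam_mem_D {s : List ℕ} {p : unitInterval} (hp : p ∈ Eset s) : (gam s).1 p ∈ Dset s := by
  rw [gam_apply, swapFun_of_symm_mem (not_mem_Dset_of_Eset hp) (flips_symm_Eset hp)]
  exact flips_symm_Eset hp

theorem gam_of_not {s : List ℕ} {p : unitInterval} (h1 : p ∉ Dset s) (h2 : p ∉ Eset s) :
    (gam s).1 p = p := by
  rw [gam_apply, swapFun_of_not_mem h1]
  intro h3
  have h4 := flips_Dset h3
  rw [Equiv.apply_symm_apply] at h4
  exact h2 h4

/-- the digits of the nodes change exactly along the prefixes of `s` -/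
theorem dig_gam {s : List ℕ} {p : unitInterval} (hp : p ∈ Dset s) (r : List ℕ) [Decidable (r <+: s)] :
    dig (idx r) ((gam s).1 p) = if r <+: s then 1 - dig (idx r) p else dig (idx r) p := by
  rw [gam_of_D hp, dig_flips (pos s) (nodup_pos s) hp.1]
  by_cases h : r <+: s
  · rw [if_pos (idx_mem_pos.2 h), if_pos h]
  · rw [if_neg fun h' => h (idx_mem_pos.1 h'), if_neg h]

theorem dig_gam_pos {s : List ℕ} {p : unitInterval} (hp : p ∈ Dset s) {r : List ℕ} (h : r <+: s) :
    dig (idx r) ((gam s).1 p) = 1 - dig (idx r) p := by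
  classical
  rw [dig_gam hp, if_pos h]

theorem dig_gam_neg {s : List ℕ} {p : unitInterval} (hp : p ∈ Dset s) {r : List ℕ} (h : ¬ r <+: s) :
    dig (idx r) ((gam s).1 p) = dig (idx r) p := by
  classical
  rw [dig_gam hp, if_neg h]

/-- different nodes move a point to different points -/
theorem gam_injective {s r : List ℕ} {p : unitInterval} (hs : p ∈ Dset s) (hr : p ∈ Dset r)
    (h : (gam s).1 p = (gam r).1 p) : s = r := by
  have h1 : s <+: r := by
    by_contra h2
    have h3 := dig_gam_pos hs (List.prefix_refl s)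
    rw [h, dig_gam_neg hr h2] at h3
    have h4 := dig_lt (idx s) p
    omega
  have h2 : r <+: s := by
    by_contra h2
    have h3 := dig_gam_pos hr (List.prefix_refl r)
    rw [← h, dig_gam_neg hs h2] at h3
    have h4 := dig_lt (idx r) p
    omega
  exact h1.eq_of_length (le_antisymm h1.length_le h2.length_le)

theorem gam_ne {s : List ℕ} {p : unitInterval} (hp : p ∈ Dset s ∪ Eset s) : (gam s).1 p ≠ p := by
  intro h
  rcases hp with hp | hp
  · have h1 := gam_mem_E hp
    rw [h] at h1
    exact not_mem_Dset_of_Eset h1 hp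
  · have h1 := gam_mem_D hp
    rw [h] at h1
    exact not_mem_Dset_of_Eset hp h1

theorem mem_union_of_gam_ne {s : List ℕ} {p : unitInterval} (h : (gam s).1 p ≠ p) : p ∈ Dset s ∪ Eset s := by
  by_contra h1
  exact h (gam_of_not (fun h2 => h1 (Or.inl h2)) fun h2 => h1 (Or.inr h2))

theorem measurableSet_Eset (s : List ℕ) : MeasurableSet (Eset s) := by
  have h : Eset s = {p : unitInterval | (p : ℝ) < 1} ∩ ({p | dig 0 p = 1} ∩
      ((⋂ j ∈ Finset.range s.length, {p | dig (idx (s.take j)) p = 0}) ∩ {p | dig (idx s) p = 1})) := by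
    ext p
    simp only [Eset, Set.mem_inter_iff, Set.mem_iInter, Finset.mem_range]
    exact Iff.rfl
  rw [h]
  exact measurableSet_lt_one.inter ((measurableSet_dig _ _).inter
    ((Finset.measurableSet_biInter _ fun j _ => measurableSet_dig _ _).inter (measurableSet_dig _ _)))

end Pool.Agent.H59.PM
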