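import Pool.Agent.H59.PM.Act

/-!
# Module HardA (PM): a measurable perfect matching gives an infinite branch
-/

set_option autoImplicit false

open MeasureTheory Filter Topology

namespace Pool.Agent.H59.PM

/-- one side -/
def side (c : ℕ) : Set unitInterval := {p | (p : ℝ) < 1 ∧ dig 0 p = c}

theorem measurableSet_side (c : ℕ) : MeasurableSet (side c) :=
  measurableSet_lt_one.inter (measurableSet_dig 0 c)

theorem measure_sides (r : List ℕ) :
    (volume : Measure unitInterval) (side 0 ∩ {p | dig (idx r) p = 1}) =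
      volume (side 1 ∩ {p | dig (idx r) p = 1}) := by
  have h : (flip 0) ⁻¹' (side 1 ∩ {p | dig (idx r) p = 1}) = side 0 ∩ {p | dig (idx r) p = 1} := by
    ext p
    by_cases hp : (p : ℝ) < 1
    · have h1 := dig_flip 0 hp
      have h2 := flip_lt 0 hp
      have h3 := h1.2 (idx r) (idx_ne_zero r)
      have h4 := dig_lt 0 p
      constructor
      · rintro ⟨⟨_, h5⟩, h6⟩
        have h5' : dig 0 (flip 0 p) = 1 := h5
        have h6' : dig (idx r) (flip 0 p) = 1 := h6
        refine ⟨⟨hp, ?_⟩, ?_⟩
        · omega
        · show dig (idx r) p = 1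
          omega
      · rintro ⟨⟨_, h5⟩, h6⟩
        have h5' : dig 0 p = 0 := h5
        have h6' : dig (idx r) p = 1 := h6
        refine ⟨⟨h2, ?_⟩, ?_⟩
        · omega
        · show dig (idx r) (flip 0 p) = 1
          omega
    · have h1 := flip_not_lt 0 hp
      constructor
      · rintro ⟨⟨h2, _⟩, _⟩
        rw [h1] at h2
        exact absurd h2 hp
      · rintro ⟨⟨h2, _⟩, _⟩
        exact absurd h2 hp
  rw [← h]
  exact (mp_flip 0).measure_preimage ((measurableSet_side 1).inter (measurableSet_dig _ _)).nullMeasurableSet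

theorem measure_side : (volume : Measure unitInterval) (side 0) ≠ 0 := by
  intro h0
  have h : (flip 0) ⁻¹' (side 1) = side 0 := by
    ext p
    by_cases hp : (p : ℝ) < 1
    · have h1 := dig_flip 0 hp
      have h2 := flip_lt 0 hp
      have h4 := dig_lt 0 p
      constructor
      · rintro ⟨_, h5⟩
        have h5' : dig 0 (flip 0 p) = 1 := h5
        exact ⟨hp, by omega⟩
      · rintro ⟨_, h5⟩
        have h5' : dig 0 p = 0 := h5
        exact ⟨h2, by omega⟩
    · have h1 := flip_not_lt 0 hp
      constructor
      · rintro ⟨h2, _⟩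
        rw [h1] at h2
        exact absurd h2 hp
      · rintro ⟨h2, _⟩
        exact absurd h2 hp
  have h1 : (volume : Measure unitInterval) (side 1) = 0 := by
    rw [← (mp_flip 0).measure_preimage (measurableSet_side 1).nullMeasurableSet, h, h0]
  have h2 : ∀ᵐ p : unitInterval, p ∈ side 0 ∪ side 1 := by
    filter_upwards [ae_lt_one] with p hp
    rcases dig_lt 0 p with h | h
    · exact Or.inl ⟨hp, h⟩
    · exact Or.inr ⟨hp, h⟩
  have h3 : (volume : Measure unitInterval) Set.univ ≤ 0 := by
    calc (volume : Measure unitInterval) Set.univ ≤ volume (side 0 ∪ side 1) := by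
          refine measure_mono_ae ?_
          filter_upwards [h2] with p hp _
          exact hp
      _ ≤ volume (side 0) + volume (side 1) := measure_union_le _ _
      _ = 0 := by rw [h0, h1, add_zero]
  rw [measure_univ] at h3
  exact absurd h3 (by norm_num)

theorem branch_of_matching {b : ℕ → Bool} {T : Set (List ℕ)} (hb : ∀ i, b i = true → node i ∈ T)
    (hT : ∀ s ∈ T, ∀ r, r <+: s → r ∈ T) (h : HasMatching (phi b)) :
    ∃ f : ℕ → ℕ, ∀ n, (List.range n).map f ∈ T := by
  obtain ⟨E, hE, hadj, hex⟩ := h
  set P : List ℕ → Set unitInterval := fun s => Dset s ∩ {p | (p, (gam s).1 p) ∈ E} with hP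
  set Q : List ℕ → Set unitInterval := fun s => (gam s).1 ⁻¹' (P s) with hQ
  have hPm : ∀ s, MeasurableSet (P s) := fun s =>
    (measurableSet_Dset s).inter ((measurable_id.prodMk (gam s).2.1.measurable) hE)
  have hQm : ∀ s, MeasurableSet (Q s) := fun s => (gam s).2.1.measurable (hPm s)
  -- the nodes of positive measure belong to the tree
  have hin : ∀ s, (volume : Measure unitInterval) (P s) ≠ 0 → s ∈ T := by
    intro s hs
    by_contra hsT
    apply hs
    rw [measure_eq_zero_iff_ae_notMem]
    filter_upwards [ae_adj b] with p hp hpP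
    obtain ⟨i, hi, h1, h2⟩ := (hp _).1 (hadj _ _ hpP.2).2
    have h3 : p ∈ Dset (node i) := by
      rcases h1 with h1 | h1
      · exact h1
      · exact absurd hpP.1 (not_mem_Dset_of_Eset h1)
    rw [gam_injective hpP.1 h3 h2] at hsT
    exact hsT (hb i hi)
  -- side 0
  have hA1 : ∀ᵐ p : unitInterval, p ∈ side 0 → ∃ s, p ∈ P s := by
    filter_upwards [ae_adj b, hex] with p hp hpe hps
    obtain ⟨q, hq⟩ := hpe.exists
    obtain ⟨i, hi, h1, h2⟩ := (hp _).1 (hadj _ _ hq).2
    have h3 : p ∈ Dset (node i) := by
      rcases h1 with h1 | h1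
      · exact h1
      · have h4 : dig 0 p = 0 := hps.2
        have h5 := h1.2.1
        omega
    refine ⟨node i, h3, ?_⟩
    show (p, (gam (node i)).1 p) ∈ E
    rw [← h2]
    exact hq
  have hA2 : ∀ᵐ p : unitInterval, ∀ s r, p ∈ P s → p ∈ P r → s = r := by
    filter_upwards [hex] with p hpe s r hs hr
    exact gam_injective hs.1 hr.1 (hpe.unique hs.2 hr.2)
  -- side 1
  have hB1 : ∀ᵐ p : unitInterval, p ∈ side 1 → ∃ s, p ∈ Q s := by
    filter_upwards [ae_adj b, hex] with p hp hpe hps
    obtain ⟨q, hq⟩ := hpe.exists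
    obtain ⟨i, hi, h1, h2⟩ := (hp _).1 (hadj _ _ hq).2
    have h3 : p ∈ Eset (node i) := by
      rcases h1 with h1 | h1
      · have h4 : dig 0 p = 1 := hps.2
        have h5 := h1.2.1
        omega
      · exact h1
    refine ⟨node i, gam_mem_D h3, ?_⟩
    show ((gam (node i)).1 p, (gam (node i)).1 ((gam (node i)).1 p)) ∈ E
    rw [gam_gam, ← h2]
    exact (hadj _ _ hq).1
  have hB2 : ∀ᵐ p : unitInterval, ∀ s r, p ∈ Q s → p ∈ Q r → s = r := by
    filter_upwards [hex] with p hpe s r hs hr
    have h1 : ((gam s).1 p, p) ∈ E := by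
      have h2 := hs.2
      have h3 : ((gam s).1 p, (gam s).1 ((gam s).1 p)) ∈ E := h2
      rwa [gam_gam] at h3
    have h4 : ((gam r).1 p, p) ∈ E := by
      have h2 := hr.2
      have h3 : ((gam r).1 p, (gam r).1 ((gam r).1 p)) ∈ E := h2
      rwa [gam_gam] at h3
    have h5 : (gam s).1 p = (gam r).1 p := hpe.unique (hadj _ _ h1).1 (hadj _ _ h4).1
    have h6 : (gam s).1 p ∈ Dset s := hs.1
    have h7 : (gam s).1 p ∈ Dset r := by
      rw [h5]
      exact hr.1
    refine gam_injective h6 h7 ?_
    rw [gam_gam]
    rw [h5, gam_gam]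
  have hPside : ∀ s p, p ∈ P s → p ∈ side 0 := fun s p hp => ⟨hp.1.1, hp.1.2.1⟩
  have hQside : ∀ s p, p ∈ Q s → p ∈ side 1 := by
    intro s p hp
    have h1 : (gam s).1 p ∈ Dset s := hp.1
    have h2 := gam_mem_E h1
    rw [gam_gam] at h2
    exact ⟨h2.1, h2.2.1⟩
  have sumP : ∀ V : Set unitInterval, MeasurableSet V → (volume : Measure unitInterval) (side 0 ∩ V) =
      ∑' s, volume (P s ∩ V) := by
    intro V hV
    have hd : Pairwise (Function.onFun (AEDisjoint (volume : Measure unitInterval)) fun s => P s ∩ V) := by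
      intro s r hsr
      show (volume : Measure unitInterval) ((P s ∩ V) ∩ (P r ∩ V)) = 0
      rw [measure_eq_zero_iff_ae_notMem]
      filter_upwards [hA2] with p hp hp2
      exact hsr (hp s r hp2.1.1 hp2.2.1)
    rw [← measure_iUnion₀ hd fun s => ((hPm s).inter hV).nullMeasurableSet]
    apply measure_congr
    filter_upwards [hA1] with p hp
    apply propext
    constructor
    · rintro ⟨h1, h2⟩
      obtain ⟨s, hs⟩ := hp h1
      exact Set.mem_iUnion.2 ⟨s, hs, h2⟩
    · intro h1
      obtain ⟨s, hs, h2⟩ := Set.mem_iUnion.1 h1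
      exact ⟨hPside s p hs, h2⟩
  have sumQ : ∀ V : Set unitInterval, MeasurableSet V → (volume : Measure unitInterval) (side 1 ∩ V) =
      ∑' s, volume (Q s ∩ V) := by
    intro V hV
    have hd : Pairwise (Function.onFun (AEDisjoint (volume : Measure unitInterval)) fun s => Q s ∩ V) := by
      intro s r hsr
      show (volume : Measure unitInterval) ((Q s ∩ V) ∩ (Q r ∩ V)) = 0
      rw [measure_eq_zero_iff_ae_notMem]
      filter_upwards [hB2] with p hp hp2
      exact hsr (hp s r hp2.1.1 hp2.2.1)
    rw [← measure_iUnion₀ hd fun s => ((hQm s).inter hV).nullMeasurableSet]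
    apply measure_congr
    filter_upwards [hB1] with p hp
    apply propext
    constructor
    · rintro ⟨h1, h2⟩
      obtain ⟨s, hs⟩ := hp h1
      exact Set.mem_iUnion.2 ⟨s, hs, h2⟩
    · intro h1
      obtain ⟨s, hs, h2⟩ := Set.mem_iUnion.1 h1
      exact ⟨hQside s p hs, h2⟩
  have hQP : ∀ s (V : Set unitInterval), MeasurableSet V →
      (volume : Measure unitInterval) (Q s ∩ V) = volume (P s ∩ (gam s).1 ⁻¹' V) := by
    intro s V hV
    have h1 : (gam s).1 ⁻¹' (P s ∩ (gam s).1 ⁻¹' V) = Q s ∩ V := by
      ext p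
      have h2 : (p ∈ (gam s).1 ⁻¹' (P s ∩ (gam s).1 ⁻¹' V)) ↔
        ((gam s).1 p ∈ P s ∧ (gam s).1 ((gam s).1 p) ∈ V) := Iff.rfl
      rw [h2, gam_gam]
      exact Iff.rfl
    rw [← h1]
    exact (gam s).2.1.measure_preimage ((hPm s).inter ((gam s).2.1.measurable hV)).nullMeasurableSet
  -- the main step
  have step : ∀ r, (volume : Measure unitInterval) (P r) ≠ 0 →
      ∃ s, (volume : Measure unitInterval) (P s) ≠ 0 ∧ r <+: s ∧ r ≠ s := by
    intro r hr
    by_contra hno
    push Not at hno
    have hz : ∀ s, r <+: s → r ≠ s → (volume : Measure unitInterval) (P s) = 0 := by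
      intro s h1 h2
      by_contra h3
      exact h2 (hno s h3 h1)
    have hV : MeasurableSet {p : unitInterval | dig (idx r) p = 1} := measurableSet_dig _ _
    have h1 := sumP _ hV
    have h2 := sumQ _ hV
    rw [measure_sides r, h2] at h1
    simp_rw [hQP _ _ hV] at h1
    have hfin : ∑' s, (volume : Measure unitInterval) (P s ∩ {p : unitInterval | dig (idx r) p = 1}) ≠ ⊤ := by
      rw [← sumP _ hV]
      exact measure_ne_top _ _
    have hle : ∀ s, (volume : Measure unitInterval) (P s ∩ {p : unitInterval | dig (idx r) p = 1}) ≤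
        volume (P s ∩ (gam s).1 ⁻¹' {p : unitInterval | dig (idx r) p = 1}) := by
      intro s
      by_cases hrs : r <+: s
      · by_cases he : r = s
        · subst he
          have h3 : P r ∩ {p : unitInterval | dig (idx r) p = 1} = ∅ := by
            ext p
            constructor
            · rintro ⟨h4, h5⟩
              have h6 : dig (idx r) p = 0 := h4.1.2.2.2
              have h7 : dig (idx r) p = 1 := h5
              omega
            · exact fun h => absurd h (Set.notMem_empty p)
          rw [h3, measure_empty]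
          exact zero_le
        · rw [measure_mono_null Set.inter_subset_left (hz s hrs he)]
          exact zero_le
      · apply measure_mono
        rintro p ⟨h4, h5⟩
        refine ⟨h4, ?_⟩
        show dig (idx r) ((gam s).1 p) = 1
        rw [dig_gam_neg h4.1 hrs]
        exact h5
    have hlt : (volume : Measure unitInterval) (P r ∩ {p : unitInterval | dig (idx r) p = 1}) <
        volume (P r ∩ (gam r).1 ⁻¹' {p : unitInterval | dig (idx r) p = 1}) := by
      have h3 : P r ∩ {p : unitInterval | dig (idx r) p = 1} = ∅ := by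
        ext p
        constructor
        · rintro ⟨h4, h5⟩
          have h6 : dig (idx r) p = 0 := h4.1.2.2.2
          have h7 : dig (idx r) p = 1 := h5
          omega
        · exact fun h => absurd h (Set.notMem_empty p)
      have h4 : P r ∩ (gam r).1 ⁻¹' {p : unitInterval | dig (idx r) p = 1} = P r := by
        ext p
        constructor
        · exact fun h => h.1
        · intro h
          refine ⟨h, ?_⟩
          show dig (idx r) ((gam r).1 p) = 1
          rw [dig_gam_pos h.1 (List.prefix_refl r), h.1.2.2.2]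
      rw [h3, h4, measure_empty]
      exact pos_iff_ne_zero.2 hr
    exact absurd h1.symm (ENNReal.tsum_lt_tsum hfin hle hlt).ne
  have start : ∃ s, (volume : Measure unitInterval) (P s) ≠ 0 := by
    by_contra hno
    push Not at hno
    have h1 := sumP Set.univ MeasurableSet.univ
    simp only [Set.inter_univ, hno, tsum_zero] at h1
    exact measure_side h1
  obtain ⟨s0, hs0⟩ := start
  choose! nx hnx using step
  set c : ℕ → List ℕ := fun n => nx^[n] s0 with hc
  have hcpos : ∀ n, (volume : Measure unitInterval) (P (c n)) ≠ 0 := by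
    intro n
    induction n with
    | zero => exact hs0
    | succ n ih =>
      have h1 : c (n + 1) = nx (c n) := Function.iterate_succ_apply' nx n s0
      rw [h1]
      exact (hnx _ ih).1
  refine exists_branch hT (s := c) (fun n => hin _ (hcpos n)) fun n => ?_
  have h1 : c (n + 1) = nx (c n) := Function.iterate_succ_apply' nx n s0
  rw [h1]
  exact (hnx _ (hcpos n)).2

end Pool.Agent.H59.PM
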