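import Pool.Agent.H59.PM.Act

/-!
# Module HardB (PM): an infinite branch gives a measurable perfect matching (an odometer along the branch)
-/

set_option autoImplicit false

open MeasureTheory Filter Topology

namespace Pool.Agent.H59.PM

/-- the digits at infinitely many positions are almost surely not all equal to `c` -/
theorem ae_exists_dig {k : ℕ → ℕ} (hk : Function.Injective k) (c : ℕ) :
    ∀ᵐ p : unitInterval, ∃ n, dig (k n) p ≠ c := by
  set A : ℕ → Set unitInterval := fun n =>
    {p : unitInterval | (p : ℝ) < 1} ∩ ⋂ j ∈ Finset.range n, {p | dig (k j) p = c} with hA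
  have hAm : ∀ n, MeasurableSet (A n) := fun n =>
    measurableSet_lt_one.inter (Finset.measurableSet_biInter _ fun j _ => measurableSet_dig _ _)
  have hmem : ∀ n p, p ∈ A n ↔ (p : ℝ) < 1 ∧ ∀ j < n, dig (k j) p = c := by
    intro n p
    rw [hA]
    simp only [Set.mem_inter_iff, Set.mem_iInter, Finset.mem_range]
    exact Iff.rfl
  have hhalf : ∀ n, 2 * (volume : Measure unitInterval) (A (n + 1)) ≤ volume (A n) := by
    intro n
    have h1 : (volume : Measure unitInterval) (flip (k n) ⁻¹' A (n + 1)) = volume (A (n + 1)) :=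
      (mp_flip (k n)).measure_preimage (hAm (n + 1)).nullMeasurableSet
    have hdis : Disjoint (A (n + 1)) (flip (k n) ⁻¹' A (n + 1)) := by
      refine Set.disjoint_left.2 fun p hp hq => ?_
      have h2 := ((hmem _ _).1 hp)
      have h3 : flip (k n) p ∈ A (n + 1) := hq
      have h4 := ((hmem _ _).1 h3).2 n (Nat.lt_succ_self n)
      have h5 := h2.2 n (Nat.lt_succ_self n)
      rw [(dig_flip (k n) h2.1).1, h5] at h4
      omega
    have hsub : A (n + 1) ∪ flip (k n) ⁻¹' A (n + 1) ⊆ A n := by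
      rintro p (hp | hp)
      · have h2 := ((hmem _ _).1 hp)
        exact (hmem _ _).2 ⟨h2.1, fun j hj => h2.2 j (hj.trans (Nat.lt_succ_self n))⟩
      · have h3 : flip (k n) p ∈ A (n + 1) := hp
        have h4 := (hmem _ _).1 h3
        have h5 : (p : ℝ) < 1 := by
          by_contra h6
          rw [flip_not_lt (k n) h6] at h4
          exact h6 h4.1
        refine (hmem _ _).2 ⟨h5, fun j hj => ?_⟩
        have h6 := h4.2 j (hj.trans (Nat.lt_succ_self n))
        rwa [(dig_flip (k n) h5).2 (k j) fun h7 => hj.ne (hk h7)] at h6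
    calc 2 * (volume : Measure unitInterval) (A (n + 1))
        = volume (A (n + 1)) + volume (flip (k n) ⁻¹' A (n + 1)) := by rw [h1, two_mul]
      _ = volume (A (n + 1) ∪ flip (k n) ⁻¹' A (n + 1)) :=
          (measure_union hdis ((measurable_flip (k n)) (hAm (n + 1)))).symm
      _ ≤ volume (A n) := measure_mono hsub
  have hle : ∀ n, 2 ^ n * (volume : Measure unitInterval) (A n) ≤ 1 := by
    intro n
    induction n with
    | zero =>
      rw [pow_zero, one_mul]
      exact prob_le_one
    | succ n ih =>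
      calc 2 ^ (n + 1) * (volume : Measure unitInterval) (A (n + 1))
          = 2 ^ n * (2 * (volume : Measure unitInterval) (A (n + 1))) := by rw [pow_succ, mul_assoc]
        _ ≤ 2 ^ n * (volume : Measure unitInterval) (A n) := by gcongr; exact hhalf n
        _ ≤ 1 := ih
  have hzero : (volume : Measure unitInterval) (⋂ n, A n) = 0 := by
    have h1 : ∀ n, (volume : Measure unitInterval) (⋂ n, A n) ≤ (2 ^ n)⁻¹ := by
      intro n
      have h2 : (volume : Measure unitInterval) (⋂ n, A n) ≤ volume (A n) := measure_mono (Set.iInter_subset _ n)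
      refine h2.trans ?_
      rw [ENNReal.le_inv_iff_mul_le, mul_comm]
      exact hle n
    have h3 : Tendsto (fun n : ℕ => ((2 : ENNReal) ^ n)⁻¹) atTop (𝓝 0) := by
      have h4 : (fun n : ℕ => ((2 : ENNReal) ^ n)⁻¹) = fun n => (2⁻¹ : ENNReal) ^ n := by
        funext n
        rw [ENNReal.inv_pow]
      rw [h4]
      exact ENNReal.tendsto_pow_atTop_nhds_zero_of_lt_one (by norm_num)
    exact le_antisymm (ge_of_tendsto' h3 h1) zero_le
  filter_upwards [measure_eq_zero_iff_ae_notMem.1 hzero, ae_lt_one] with p hp hp1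
  by_contra hno
  push Not at hno
  exact hp (Set.mem_iInter.2 fun n => (hmem _ _).2 ⟨hp1, fun j _ => hno j⟩)

/-- the initial segments of a branch -/
def seg (f : ℕ → ℕ) (n : ℕ) : List ℕ := (List.range n).map f

theorem length_seg (f : ℕ → ℕ) (n : ℕ) : (seg f n).length = n := by
  unfold seg
  rw [List.length_map, List.length_range]

theorem take_seg (f : ℕ → ℕ) {j n : ℕ} (h : j ≤ n) : (seg f n).take j = seg f j := by
  unfold seg
  rw [← List.map_take, List.take_range, min_eq_left h]

theorem idx_seg_injective (f : ℕ → ℕ) : Function.Injective fun n => idx (seg f n) := by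
  intro m n h
  have h1 := congrArg List.length (idx_injective h)
  rwa [length_seg, length_seg] at h1

theorem mem_Dset_seg {f : ℕ → ℕ} {n : ℕ} {p : unitInterval} : p ∈ Dset (seg f n) ↔
    (p : ℝ) < 1 ∧ dig 0 p = 0 ∧ (∀ j < n, dig (idx (seg f j)) p = 1) ∧ dig (idx (seg f n)) p = 0 := by
  have h : p ∈ Dset (seg f n) ↔ (p : ℝ) < 1 ∧ dig 0 p = 0 ∧
      (∀ j < (seg f n).length, dig (idx ((seg f n).take j)) p = 1) ∧ dig (idx (seg f n)) p = 0 := Iff.rfl
  rw [h, length_seg]
  constructor
  · rintro ⟨h1, h2, h3, h4⟩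
    exact ⟨h1, h2, fun j hj => by rw [← take_seg f hj.le]; exact h3 j hj, h4⟩
  · rintro ⟨h1, h2, h3, h4⟩
    exact ⟨h1, h2, fun j hj => by rw [take_seg f hj.le]; exact h3 j hj, h4⟩

theorem mem_Eset_seg {f : ℕ → ℕ} {n : ℕ} {p : unitInterval} : p ∈ Eset (seg f n) ↔
    (p : ℝ) < 1 ∧ dig 0 p = 1 ∧ (∀ j < n, dig (idx (seg f j)) p = 0) ∧ dig (idx (seg f n)) p = 1 := by
  have h : p ∈ Eset (seg f n) ↔ (p : ℝ) < 1 ∧ dig 0 p = 1 ∧
      (∀ j < (seg f n).length, dig (idx ((seg f n).take j)) p = 0) ∧ dig (idx (seg f n)) p = 1 := Iff.rfl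
  rw [h, length_seg]
  constructor
  · rintro ⟨h1, h2, h3, h4⟩
    exact ⟨h1, h2, fun j hj => by rw [← take_seg f hj.le]; exact h3 j hj, h4⟩
  · rintro ⟨h1, h2, h3, h4⟩
    exact ⟨h1, h2, fun j hj => by rw [take_seg f hj.le]; exact h3 j hj, h4⟩

theorem Dset_seg_unique {f : ℕ → ℕ} {m n : ℕ} {p : unitInterval} (hm : p ∈ Dset (seg f m))
    (hn : p ∈ Dset (seg f n)) : m = n := by
  rw [mem_Dset_seg] at hm hn
  by_contra hne
  rcases lt_or_gt_of_ne hne with h | h
  · have h1 := hn.2.2.1 m h
    have h2 := hm.2.2.2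
    omega
  · have h1 := hm.2.2.1 n h
    have h2 := hn.2.2.2
    omega

theorem Eset_seg_unique {f : ℕ → ℕ} {m n : ℕ} {p : unitInterval} (hm : p ∈ Eset (seg f m))
    (hn : p ∈ Eset (seg f n)) : m = n := by
  rw [mem_Eset_seg] at hm hn
  by_contra hne
  rcases lt_or_gt_of_ne hne with h | h
  · have h1 := hn.2.2.1 m h
    have h2 := hm.2.2.2
    omega
  · have h1 := hm.2.2.1 n h
    have h2 := hn.2.2.2
    omega

theorem matching_of_branch {b : ℕ → Bool} {f : ℕ → ℕ} (hb : ∀ i n, node i = seg f n → b i = true) :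
    HasMatching (phi b) := by
  classical
  set F : Set (unitInterval × unitInterval) :=
    {z | ∃ n, z.1 ∈ Dset (seg f n) ∧ z.2 = (gam (seg f n)).1 z.1} with hF
  have hFm : MeasurableSet F := by
    have h1 : F = ⋃ n, ({z | z.1 ∈ Dset (seg f n)} ∩ {z | z.2 = (gam (seg f n)).1 z.1}) := by
      ext z
      simp only [Set.mem_iUnion]
      exact Iff.rfl
    rw [h1]
    exact MeasurableSet.iUnion fun n => (measurable_fst (measurableSet_Dset _)).inter
      (measurableSet_eq_fun measurable_snd ((gam (seg f n)).2.1.measurable.comp measurable_fst))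
  refine ⟨(F ∪ Prod.swap ⁻¹' F) ∩ {z | Adj (phi b) z.1 z.2},
    (hFm.union (measurable_swap hFm)).inter (measurableSet_adj _), ?_, ?_⟩
  · rintro p q ⟨h1, h2⟩
    refine ⟨⟨?_, Adj.symm h2⟩, h2⟩
    rcases h1 with h1 | h1
    · exact Or.inr h1
    · exact Or.inl h1
  · filter_upwards [ae_adj b, ae_lt_one, ae_exists_dig (idx_seg_injective f) 0,
      ae_exists_dig (idx_seg_injective f) 1] with p hadj hp1 hz ho
    have adj : ∀ n, p ∈ Dset (seg f n) ∪ Eset (seg f n) → Adj (phi b) p ((gam (seg f n)).1 p) := by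
      intro n hn
      obtain ⟨i, hi⟩ := node_surjective (seg f n)
      refine (hadj _).2 ⟨i, hb i n hi, ?_, ?_⟩
      · rw [hi]
        exact hn
      · rw [hi]
    rcases dig_lt 0 p with h0 | h0
    · -- side 0
      have hex : ∃ n, dig (idx (seg f n)) p = 0 := by
        obtain ⟨n, hn⟩ := ho
        refine ⟨n, ?_⟩
        have := dig_lt (idx (seg f n)) p
        omega
      have hD : p ∈ Dset (seg f (Nat.find hex)) := by
        refine mem_Dset_seg.2 ⟨hp1, h0, fun j hj => ?_, Nat.find_spec hex⟩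
        have h1 := Nat.find_min hex hj
        have h2 := dig_lt (idx (seg f j)) p
        omega
      refine ⟨(gam (seg f (Nat.find hex))).1 p, ⟨Or.inl ⟨_, hD, rfl⟩, adj _ (Or.inl hD)⟩, ?_⟩
      rintro q ⟨h1, _⟩
      rcases h1 with ⟨m, h2, h3⟩ | ⟨m, h2, h3⟩
      · have h4 : q = (gam (seg f m)).1 p := h3
        rw [h4, Dset_seg_unique (show p ∈ Dset (seg f m) from h2) hD]
      · have h4 : p = (gam (seg f m)).1 q := h3
        have h5 : p ∈ Eset (seg f m) := by
          rw [h4]
          exact gam_mem_E h2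
        exact absurd hD (not_mem_Dset_of_Eset h5)
    · -- side 1
      have hex : ∃ n, dig (idx (seg f n)) p = 1 := by
        obtain ⟨n, hn⟩ := hz
        refine ⟨n, ?_⟩
        have := dig_lt (idx (seg f n)) p
        omega
      have hE : p ∈ Eset (seg f (Nat.find hex)) := by
        refine mem_Eset_seg.2 ⟨hp1, h0, fun j hj => ?_, Nat.find_spec hex⟩
        have h1 := Nat.find_min hex hj
        have h2 := dig_lt (idx (seg f j)) p
        omega
      refine ⟨(gam (seg f (Nat.find hex))).1 p,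
        ⟨Or.inr ⟨_, gam_mem_D hE, (gam_gam _ _).symm⟩, adj _ (Or.inr hE)⟩, ?_⟩
      rintro q ⟨h1, _⟩
      rcases h1 with ⟨m, h2, h3⟩ | ⟨m, h2, h3⟩
      · exact absurd (show p ∈ Dset (seg f m) from h2) (not_mem_Dset_of_Eset hE)
      · have h4 : p = (gam (seg f m)).1 q := h3
        have h5 : p ∈ Eset (seg f m) := by
          rw [h4]
          exact gam_mem_E h2
        have h6 := Eset_seg_unique h5 hE
        rw [← h6, h4, gam_gam]

end Pool.Agent.H59.PM
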