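import Pool.Agent.H59.PM.Bor

/-!
# Module Invol (PM): matchings and involutions
-/

set_option autoImplicit false

open MeasureTheory Filter Topology

namespace Pool.Agent.H59.PM

/-- `τ` is a matching of the Schreier graph of the generators `g` -/
def Good (g : ℕ → Aut01) (τ : Aut01) : Prop :=
  (∀ᵐ p : unitInterval, ∃ i, (rep τ).1 p = (rep (g i)).1 p ∨ (rep τ).1 p = (rep (g i)).1.symm p) ∧
    (∀ᵐ p : unitInterval, (rep τ).1 p ≠ p) ∧ ∀ᵐ p : unitInterval, (rep τ).1 ((rep τ).1 p) = p

theorem Adj.symm {x : Act} {p q : unitInterval} (h : Adj x p q) : Adj x q p := by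
  obtain ⟨h1, i, h2⟩ := h
  refine ⟨h1.symm, i, ?_⟩
  rcases h2 with h2 | h2
  · right
    rw [h2, Equiv.symm_apply_apply]
  · left
    rw [h2, Equiv.apply_symm_apply]

theorem measurableSet_adj (x : Act) : MeasurableSet {z : unitInterval × unitInterval | Adj x z.1 z.2} := by
  have h1 : MeasurableSet {z : unitInterval × unitInterval | z.1 ≠ z.2} :=
    (measurableSet_eq_fun measurable_fst measurable_snd).compl
  have h2 : MeasurableSet {z : unitInterval × unitInterval | ∃ i, z.2 = gen x i z.1 ∨
      z.2 = (gen x i).symm z.1} := by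
    have h3 : {z : unitInterval × unitInterval | ∃ i, z.2 = gen x i z.1 ∨ z.2 = (gen x i).symm z.1} =
        ⋃ i, ({z | z.2 = gen x i z.1} ∪ {z | z.2 = (gen x i).symm z.1}) := by
      ext z
      simp only [Set.mem_iUnion]
      exact Iff.rfl
    rw [h3]
    refine MeasurableSet.iUnion fun i => MeasurableSet.union ?_ ?_
    · exact measurableSet_eq_fun measurable_snd ((rep (x (FreeGroup.of i))).2.1.measurable.comp measurable_fst)
    · exact measurableSet_eq_fun measurable_snd ((rep (x (FreeGroup.of i))).2.2.measurable.comp measurable_fst)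
  exact h1.inter h2

theorem hasMatching_of_good {x : Act} {τ : Aut01} (h : Good (fun i => x (FreeGroup.of i)) τ) :
    HasMatching x := by
  obtain ⟨h1, h2, h3⟩ := h
  have hτ := (rep τ).2.1.measurable
  refine ⟨{z | z.2 = (rep τ).1 z.1} ∩ ({z | z.1 = (rep τ).1 z.2} ∩ {z | Adj x z.1 z.2}), ?_, ?_, ?_⟩
  · refine (measurableSet_eq_fun measurable_snd (hτ.comp measurable_fst)).inter
      ((measurableSet_eq_fun measurable_fst (hτ.comp measurable_snd)).inter (measurableSet_adj x))
  · rintro p q ⟨a, b, c⟩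
    exact ⟨⟨b, a, Adj.symm c⟩, c⟩
  · filter_upwards [h1, h2, h3] with p hp1 hp2 hp3
    refine ⟨(rep τ).1 p, ⟨rfl, hp3.symm, hp2.symm, hp1⟩, ?_⟩
    rintro q ⟨a, _⟩
    exact a

/-- the generators and their inverses in one sequence -/
noncomputable def gens (x : Act) (k : ℕ) : BAut :=
  if k % 2 = 0 then rep (x (FreeGroup.of (k / 2))) else (rep (x (FreeGroup.of (k / 2))))⁻¹

theorem exists_gens {x : Act} {p q : unitInterval} (h : Adj x p q) : ∃ k, q = (gens x k).1 p := by
  obtain ⟨_, i, h2⟩ := h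
  rcases h2 with h2 | h2
  · refine ⟨2 * i, ?_⟩
    have h3 : gens x (2 * i) = rep (x (FreeGroup.of i)) := by
      unfold gens
      rw [if_pos (by omega)]
      congr 3
      omega
    rw [h3]
    exact h2
  · refine ⟨2 * i + 1, ?_⟩
    have h3 : gens x (2 * i + 1) = (rep (x (FreeGroup.of i)))⁻¹ := by
      unfold gens
      rw [if_neg (by omega)]
      congr 4
      omega
    rw [h3]
    exact h2

theorem good_of_hasMatching {x : Act} (h : HasMatching x) :
    ∃ τ : Aut01, Good (fun i => x (FreeGroup.of i)) τ := by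
  classical
  obtain ⟨E, hE, hadj, hex⟩ := h
  set P : ℕ → Set unitInterval := fun k => {p | (p, (gens x k).1 p) ∈ E} with hP
  have hPm : ∀ k, MeasurableSet (P k) := fun k =>
    (measurable_id.prodMk (gens x k).2.1.measurable) hE
  set t : unitInterval → unitInterval := fun p =>
    if H : ∃ k, p ∈ P k then (gens x (Nat.find H)).1 p else p with ht
  set D : ℕ → Set unitInterval := fun k => P k ∩ ⋂ j ∈ Finset.range k, (P j)ᶜ with hD
  have hDm : ∀ k, MeasurableSet (D k) := fun k =>
    (hPm k).inter (Finset.measurableSet_biInter _ fun j _ => (hPm j).compl)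
  have hDmem : ∀ k p, p ∈ D k ↔ p ∈ P k ∧ ∀ j < k, p ∉ P j := by
    intro k p
    rw [hD]
    simp only [Set.mem_inter_iff, Set.mem_iInter, Finset.mem_range, Set.mem_compl_iff]
  have htD : ∀ k p, p ∈ D k → t p = (gens x k).1 p := by
    intro k p hp
    rw [hDmem] at hp
    have H : ∃ k, p ∈ P k := ⟨k, hp.1⟩
    have h1 : Nat.find H = k := by
      rw [Nat.find_eq_iff]
      exact hp
    rw [ht]
    simp only [dif_pos H, h1]
  have hDex : ∀ p, (∃ k, p ∈ P k) → ∃ k, p ∈ D k := by
    intro p H
    exact ⟨Nat.find H, (hDmem _ _).2 ⟨Nat.find_spec H, fun j hj => Nat.find_min H hj⟩⟩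
  have htn : ∀ p, (¬ ∃ k, p ∈ P k) → t p = p := by
    intro p H
    rw [ht]
    simp only [dif_neg H]
  have hDdisj : ∀ k j p, p ∈ D k → p ∈ D j → k = j := by
    intro k j p h1 h2
    rw [hDmem] at h1 h2
    by_contra hne
    rcases lt_or_gt_of_ne hne with h3 | h3
    · exact h2.2 k h3 h1.1
    · exact h1.2 j h3 h2.1
  have hpre : ∀ A : Set unitInterval, t ⁻¹' A = (⋃ k, (D k ∩ (gens x k).1 ⁻¹' A)) ∪ ((⋃ k, P k)ᶜ ∩ A) := by
    intro A
    ext p
    constructor
    · intro hp
      by_cases H : ∃ k, p ∈ P k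
      · obtain ⟨k, hk⟩ := hDex p H
        refine Or.inl (Set.mem_iUnion.2 ⟨k, hk, ?_⟩)
        show (gens x k).1 p ∈ A
        rw [← htD k p hk]
        exact hp
      · refine Or.inr ⟨fun h => H (Set.mem_iUnion.1 h), ?_⟩
        have h1 : t p ∈ A := hp
        rwa [htn p H] at h1
    · rintro (hp | hp)
      · obtain ⟨k, hk, hA⟩ := Set.mem_iUnion.1 hp
        show t p ∈ A
        rw [htD k p hk]
        exact hA
      · show t p ∈ A
        rw [htn p fun h => hp.1 (Set.mem_iUnion.2 h)]
        exact hp.2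
  have htm : Measurable t := by
    intro A hA
    rw [hpre]
    exact (MeasurableSet.iUnion fun k => (hDm k).inter ((gens x k).2.1.measurable hA)).union
      ((MeasurableSet.iUnion hPm).compl.inter hA)
  -- `t` is nonsingular
  have hns : ∀ {Q : unitInterval → Prop}, (∀ᵐ p : unitInterval, Q p) → ∀ᵐ p : unitInterval, Q (t p) := by
    intro Q hQ
    have h1 : ∀ᵐ p : unitInterval, ∀ k, Q ((gens x k).1 p) :=
      ae_all_iff.2 fun k => ae_comp (gens x k) hQ
    filter_upwards [hQ, h1] with p hp1 hp2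
    by_cases H : ∃ k, p ∈ P k
    · obtain ⟨k, hk⟩ := hDex p H
      rw [htD k p hk]
      exact hp2 k
    · rw [htn p H]
      exact hp1
  have htE : ∀ p, (∃! q, (p, q) ∈ E) → (p, t p) ∈ E := by
    intro p hp
    obtain ⟨q, hq⟩ := hp.exists
    obtain ⟨k, hk⟩ := exists_gens (hadj p q hq).2
    have H : ∃ k, p ∈ P k := ⟨k, by show (p, (gens x k).1 p) ∈ E; rw [← hk]; exact hq⟩
    obtain ⟨j, hj⟩ := hDex p H
    rw [htD j p hj]
    exact ((hDmem _ _).1 hj).1
  have htt : ∀ᵐ p : unitInterval, t (t p) = p := by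
    filter_upwards [hex, hns hex] with p hp1 hp2
    have h1 := htE p hp1
    have h2 := htE (t p) hp2
    have h3 := (hadj _ _ h1).1
    exact hp2.unique h2 h3
  -- `t` is measure preserving
  have hle : ∀ A, MeasurableSet A → (volume : Measure unitInterval) (t ⁻¹' A) ≤ volume A := by
    intro A hA
    set B : ℕ → Set unitInterval := fun k => (gens x k).1.symm ⁻¹' (D k ∩ ({p | t (t p) = p} ∩
      (gens x k).1 ⁻¹' A)) with hB
    have hG0 : MeasurableSet {p | t (t p) = p} := measurableSet_eq_fun (htm.comp htm) measurable_id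
    have hCm : ∀ k, MeasurableSet (D k ∩ ({p | t (t p) = p} ∩ (gens x k).1 ⁻¹' A)) := fun k =>
      (hDm k).inter (hG0.inter ((gens x k).2.1.measurable hA))
    have hBm : ∀ k, MeasurableSet (B k) := fun k => (gens x k).2.2.measurable (hCm k)
    have hBd : Pairwise (Function.onFun Disjoint B) := by
      intro k j hkj
      refine Set.disjoint_left.2 fun q hq1 hq2 => hkj ?_
      have key : ∀ k, q ∈ B k → t q ∈ D k := by
        intro k hq
        obtain ⟨h1, h2, _⟩ := hq
        have h3 := htD k _ h1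
        rw [Equiv.apply_symm_apply] at h3
        have h4 : t (t ((gens x k).1.symm q)) = (gens x k).1.symm q := h2
        rw [h3] at h4
        rw [h4]
        exact h1
      exact hDdisj k j _ (key k hq1) (key j hq2)
    have hBA : (⋃ k, B k) ⊆ A := by
      intro q hq
      obtain ⟨k, _, _, h3⟩ := Set.mem_iUnion.1 hq
      have h4 : (gens x k).1 ((gens x k).1.symm q) ∈ A := h3
      rwa [Equiv.apply_symm_apply] at h4
    have hsub : (t ⁻¹' A : Set unitInterval) ≤ᵐ[volume]
        (⋃ k, (D k ∩ ({p | t (t p) = p} ∩ (gens x k).1 ⁻¹' A)) : Set unitInterval) := by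
      filter_upwards [htt, hex] with p hp1 hp2 hp3
      have H : ∃ k, p ∈ P k := by
        obtain ⟨q, hq⟩ := hp2.exists
        obtain ⟨k, hk⟩ := exists_gens (hadj p q hq).2
        exact ⟨k, by show (p, (gens x k).1 p) ∈ E; rw [← hk]; exact hq⟩
      obtain ⟨k, hk⟩ := hDex p H
      refine Set.mem_iUnion.2 ⟨k, hk, hp1, ?_⟩
      show (gens x k).1 p ∈ A
      rw [← htD k p hk]
      exact hp3
    calc (volume : Measure unitInterval) (t ⁻¹' A)
        ≤ volume (⋃ k, (D k ∩ ({p | t (t p) = p} ∩ (gens x k).1 ⁻¹' A))) := measure_mono_ae hsub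
      _ ≤ ∑' k, volume (D k ∩ ({p | t (t p) = p} ∩ (gens x k).1 ⁻¹' A)) := measure_iUnion_le _
      _ = ∑' k, volume (B k) := by
          congr 1
          funext k
          exact ((gens x k).2.2.measure_preimage (hCm k).nullMeasurableSet).symm
      _ = volume (⋃ k, B k) := (measure_iUnion hBd hBm).symm
      _ ≤ volume A := measure_mono hBA
  have hmp : MeasurePreserving t volume volume := by
    refine ⟨htm, ?_⟩
    have : IsProbabilityMeasure (Measure.map t (volume : Measure unitInterval)) :=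
      Measure.isProbabilityMeasure_map htm.aemeasurable
    refine Measure.ext fun A hA => ?_
    rw [Measure.map_apply htm hA]
    refine le_antisymm (hle A hA) ?_
    have h1 := hle Aᶜ hA.compl
    rw [Set.preimage_compl, prob_compl_eq_one_sub (htm hA), prob_compl_eq_one_sub hA] at h1
    have h2 : (volume : Measure unitInterval) A ≤ 1 := prob_le_one
    have h3 : (volume : Measure unitInterval) (t ⁻¹' A) ≤ 1 := prob_le_one
    exact (ENNReal.sub_le_sub_iff_left h2 ENNReal.one_ne_top).1 h1
  obtain ⟨T, hT, _⟩ := exists_baut hmp hmp htt htt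
  have hτ : ∀ᵐ p : unitInterval, (rep (mk T)).1 p = t p := by
    filter_upwards [rep_mk T, hT] with p h1 h2
    rw [h1, h2]
  refine ⟨mk T, ?_, ?_, ?_⟩
  · filter_upwards [hτ, hex] with p h1 h2
    rw [h1]
    exact (hadj _ _ (htE p h2)).2.2
  · filter_upwards [hτ, hex] with p h1 h2
    rw [h1]
    exact (hadj _ _ (htE p h2)).2.1.symm
  · filter_upwards [hτ, hns hτ, htt] with p h1 h2 h3
    rw [h1, h2, h3]

end Pool.Agent.H59.PM
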