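import Pool.Agent.H59.PM.Basic

/-!
# Module Lone (PM): composition of an integrable function with measure preserving maps which are close in L^1
-/

set_option autoImplicit false

open MeasureTheory Filter Topology

namespace Pool.Agent.H59.PM

theorem unif_le (g : unitInterval → ℝ) (hg : Continuous g) {η : ℝ} (hη : 0 < η) :
    ∃ C : ℝ, 0 < C ∧ ∀ x y : unitInterval, dist (g x) (g y) ≤ η + C * dist x y := by
  have hu : UniformContinuous g := CompactSpace.uniformContinuous_of_continuous hg
  obtain ⟨δ, hδ, h1⟩ := Metric.uniformContinuous_iff.1 hu η hη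
  obtain ⟨M, hM⟩ := (isCompact_range hg).isBounded.subset_closedBall 0
  have hM0 : ∀ x, |g x| ≤ M := by
    intro x
    have := hM (Set.mem_range_self x)
    rwa [Metric.mem_closedBall, dist_zero_right, Real.norm_eq_abs] at this
  have hMn : 0 ≤ M := (abs_nonneg _).trans (hM0 0)
  refine ⟨2 * (M + 1) / δ, by positivity, fun x y => ?_⟩
  rcases lt_or_ge (dist x y) δ with h | h
  · have h2 := (h1 h).le
    have h3 : 0 ≤ 2 * (M + 1) / δ * dist x y := by positivity
    linarith
  · have h2 : 2 * (M + 1) / δ * dist x y ≥ 2 * (M + 1) / δ * δ := by gcongr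
    rw [div_mul_cancel₀ _ hδ.ne'] at h2
    have h3 : dist (g x) (g y) ≤ |g x| + |g y| := by
      rw [Real.dist_eq]
      exact abs_sub _ _
    have h4 := hM0 x
    have h5 := hM0 y
    linarith

theorem integrable_dist {a b : unitInterval → unitInterval} (ha : Measurable a) (hb : Measurable b) :
    Integrable (fun p => dist (a p) (b p)) (volume : Measure unitInterval) := by
  refine Integrable.of_bound (ha.dist hb).aestronglyMeasurable 1 (Filter.Eventually.of_forall fun p => ?_)
  rw [Real.norm_eq_abs, abs_of_nonneg dist_nonneg, Subtype.dist_eq, Real.dist_eq, abs_le]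
  have h1 := (a p).2
  have h2 := (b p).2
  constructor <;> linarith [h1.1, h1.2, h2.1, h2.2]

theorem integrable_comp {h : unitInterval → ℝ} (hi : Integrable h (volume : Measure unitInterval))
    {a : unitInterval → unitInterval} (ha : MeasurePreserving a volume volume) :
    Integrable (fun p => h (a p)) (volume : Measure unitInterval) :=
  ha.integrable_comp_of_integrable hi

theorem integrable_dist_comp {h : unitInterval → ℝ} (hi : Integrable h (volume : Measure unitInterval))
    {a b : unitInterval → unitInterval} (ha : MeasurePreserving a volume volume)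
    (hb : MeasurePreserving b volume volume) :
    Integrable (fun p => dist (h (a p)) (h (b p))) (volume : Measure unitInterval) :=
  ((integrable_comp hi ha).sub (integrable_comp hi hb)).norm

theorem integral_comp_mp {h : unitInterval → ℝ} (hi : Integrable h (volume : Measure unitInterval))
    {a : unitInterval → unitInterval} (ha : MeasurePreserving a volume volume) :
    ∫ p, h (a p) = ∫ p, h p := by
  have h1 := integral_map (μ := (volume : Measure unitInterval)) (φ := a) ha.measurable.aemeasurable
    (f := h) (by rw [ha.map_eq]; exact hi.aestronglyMeasurable)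
  rw [ha.map_eq] at h1
  exact h1.symm

/-- Lemma L for continuous functions; the maps need not be measure preserving -/
theorem comp_close_cont (g : unitInterval → ℝ) (hg : Continuous g) {ε : ℝ} (hε : 0 < ε) :
    ∃ δ : ℝ, 0 < δ ∧ ∀ a b : unitInterval → unitInterval, Measurable a → Measurable b →
      ∫ p, dist (a p) (b p) ≤ δ → ∫ p, dist (g (a p)) (g (b p)) ≤ ε := by
  obtain ⟨C, hC, h⟩ := unif_le g hg (half_pos hε)
  refine ⟨ε / 2 / C, by positivity, fun a b ha hb hab => ?_⟩
  have hgm : Measurable g := hg.measurable
  have hint : Integrable (fun p => ε / 2 + C * dist (a p) (b p)) (volume : Measure unitInterval) :=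
    (integrable_const _).add ((integrable_dist ha hb).const_mul C)
  calc ∫ p, dist (g (a p)) (g (b p)) ≤ ∫ p, (ε / 2 + C * dist (a p) (b p)) := by
        refine integral_mono_of_nonneg (Filter.Eventually.of_forall fun p => dist_nonneg) hint
          (Filter.Eventually.of_forall fun p => h _ _)
    _ = ε / 2 + C * ∫ p, dist (a p) (b p) := by
        rw [integral_add (integrable_const _) ((integrable_dist ha hb).const_mul C), integral_const,
          integral_const_mul]
        simp
    _ ≤ ε / 2 + C * (ε / 2 / C) := by gcongr
    _ = ε := by field_simp; ring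

/-- Lemma L -/
theorem comp_close {h : unitInterval → ℝ} (hi : Integrable h (volume : Measure unitInterval)) {ε : ℝ}
    (hε : 0 < ε) :
    ∃ δ : ℝ, 0 < δ ∧ ∀ a b : unitInterval → unitInterval, MeasurePreserving a volume volume →
      MeasurePreserving b volume volume →
      ∫ p, dist (a p) (b p) ≤ δ → ∫ p, dist (h (a p)) (h (b p)) ≤ ε := by
  obtain ⟨g, hg, hgi⟩ := hi.exists_boundedContinuous_integral_sub_le (ε := ε / 4) (by positivity)
  obtain ⟨δ, hδ, hd⟩ := comp_close_cont g g.continuous (half_pos hε)
  refine ⟨δ, hδ, fun a b ha hb hab => ?_⟩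
  have h1 := hd a b ha.measurable hb.measurable hab
  have hfg : Integrable (fun p => dist (h p) (g p)) (volume : Measure unitInterval) := (hi.sub hgi).norm
  have h2 : ∫ p, dist (h (a p)) (g (a p)) ≤ ε / 4 := by
    rw [integral_comp_mp (h := fun p => dist (h p) (g p)) hfg ha]
    exact hg
  have h3 : ∫ p, dist (h (b p)) (g (b p)) ≤ ε / 4 := by
    rw [integral_comp_mp (h := fun p => dist (h p) (g p)) hfg hb]
    exact hg
  have i1 := integrable_comp (h := fun p => dist (h p) (g p)) hfg ha
  have i2 := integrable_comp (h := fun p => dist (h p) (g p)) hfg hb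
  have i3 := integrable_dist_comp hgi ha hb
  calc ∫ p, dist (h (a p)) (h (b p))
      ≤ ∫ p, (dist (h (a p)) (g (a p)) + dist (g (a p)) (g (b p)) + dist (h (b p)) (g (b p))) := by
        refine integral_mono (integrable_dist_comp hi ha hb) ((i1.add i3).add i2) fun p => ?_
        have h4 := dist_triangle4 (h (a p)) (g (a p)) (g (b p)) (h (b p))
        rw [dist_comm (g (b p)) (h (b p))] at h4
        exact h4
    _ = (∫ p, dist (h (a p)) (g (a p))) + (∫ p, dist (g (a p)) (g (b p))) +
          ∫ p, dist (h (b p)) (g (b p)) := by
        have h5 := integral_add (i1.add i3) i2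
        have h6 := integral_add i1 i3
        simp only [Pi.add_apply] at h5
        rw [h5, h6]
    _ ≤ ε / 4 + ε / 2 + ε / 4 := by gcongr
    _ = ε := by ring

end Pool.Agent.H59.PM
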