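import Pool.Agent.H59.PM.Digits

/-!
# Module Piece (PM): piecewise defined involutions, changes of several digits, the generators of the reduction
-/

set_option autoImplicit false

open MeasureTheory Filter Topology

namespace Pool.Agent.H59.PM

/-- an involution which coincides piecewise with automorphisms is measure preserving -/
theorem mp_of_piecewise {t : unitInterval → unitInterval} (htm : Measurable t) (htt : ∀ p, t (t p) = p)
    (h : ℕ → BAut) (hp : ∀ p, ∃ k, t p = (h k).1 p) : MeasurePreserving t volume volume := by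
  classical
  set P : ℕ → Set unitInterval := fun k => {p | t p = (h k).1 p} with hP
  have hPm : ∀ k, MeasurableSet (P k) := fun k => measurableSet_eq_fun htm (h k).2.1.measurable
  set D : ℕ → Set unitInterval := fun k => P k ∩ ⋂ j ∈ Finset.range k, (P j)ᶜ with hD
  have hDm : ∀ k, MeasurableSet (D k) := fun k =>
    (hPm k).inter (Finset.measurableSet_biInter _ fun j _ => (hPm j).compl)
  have hDmem : ∀ k p, p ∈ D k ↔ p ∈ P k ∧ ∀ j < k, p ∉ P j := by
    intro k p
    rw [hD]
    simp only [Set.mem_inter_iff, Set.mem_iInter, Finset.mem_range, Set.mem_compl_iff]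
  have htD : ∀ k p, p ∈ D k → t p = (h k).1 p := fun k p hp => ((hDmem k p).1 hp).1
  have hDex : ∀ p, ∃ k, p ∈ D k := by
    intro p
    have H : ∃ k, p ∈ P k := hp p
    exact ⟨Nat.find H, (hDmem _ _).2 ⟨Nat.find_spec H, fun j hj => Nat.find_min H hj⟩⟩
  have hDdisj : ∀ k j p, p ∈ D k → p ∈ D j → k = j := by
    intro k j p h1 h2
    rw [hDmem] at h1 h2
    by_contra hne
    rcases lt_or_gt_of_ne hne with h3 | h3
    · exact h2.2 k h3 h1.1
    · exact h1.2 j h3 h2.1
  have hle : ∀ A, MeasurableSet A → (volume : Measure unitInterval) (t ⁻¹' A) ≤ volume A := by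
    intro A hA
    set B : ℕ → Set unitInterval := fun k => (h k).1.symm ⁻¹' (D k ∩ (h k).1 ⁻¹' A) with hB
    have hCm : ∀ k, MeasurableSet (D k ∩ (h k).1 ⁻¹' A) := fun k =>
      (hDm k).inter ((h k).2.1.measurable hA)
    have hBm : ∀ k, MeasurableSet (B k) := fun k => (h k).2.2.measurable (hCm k)
    have hBd : Pairwise (Function.onFun Disjoint B) := by
      intro k j hkj
      refine Set.disjoint_left.2 fun q hq1 hq2 => hkj ?_
      have key : ∀ k, q ∈ B k → t q ∈ D k := by
        intro k hq
        obtain ⟨h1, _⟩ := hq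
        have h3 := htD k _ h1
        rw [Equiv.apply_symm_apply] at h3
        have h4 := htt ((h k).1.symm q)
        rw [h3] at h4
        rw [h4]
        exact h1
      exact hDdisj k j _ (key k hq1) (key j hq2)
    have hBA : (⋃ k, B k) ⊆ A := by
      intro q hq
      obtain ⟨k, _, h3⟩ := Set.mem_iUnion.1 hq
      have h4 : (h k).1 ((h k).1.symm q) ∈ A := h3
      rwa [Equiv.apply_symm_apply] at h4
    have hsub : (t ⁻¹' A : Set unitInterval) ⊆ (⋃ k, (D k ∩ (h k).1 ⁻¹' A) : Set unitInterval) := by
      intro p hp3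
      obtain ⟨k, hk⟩ := hDex p
      refine Set.mem_iUnion.2 ⟨k, hk, ?_⟩
      show (h k).1 p ∈ A
      rw [← htD k p hk]
      exact hp3
    calc (volume : Measure unitInterval) (t ⁻¹' A)
        ≤ volume (⋃ k, (D k ∩ (h k).1 ⁻¹' A)) := measure_mono hsub
      _ ≤ ∑' k, volume (D k ∩ (h k).1 ⁻¹' A) := measure_iUnion_le _
      _ = ∑' k, volume (B k) := by
          congr 1
          funext k
          exact ((h k).2.2.measure_preimage (hCm k).nullMeasurableSet).symm
      _ = volume (⋃ k, B k) := (measure_iUnion hBd hBm).symm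
      _ ≤ volume A := measure_mono hBA
  refine ⟨htm, ?_⟩
  have : IsProbabilityMeasure (Measure.map t (volume : Measure unitInterval)) :=
    Measure.isProbabilityMeasure_map htm.aemeasurable
  refine Measure.ext fun A hA => ?_
  rw [Measure.map_apply htm hA]
  refine le_antisymm (hle A hA) ?_
  have h1 := hle Aᶜ hA.compl
  rw [Set.preimage_compl, prob_compl_eq_one_sub (htm hA), prob_compl_eq_one_sub hA] at h1
  have h2 : (volume : Measure unitInterval) A ≤ 1 := prob_le_one
  exact (ENNReal.sub_le_sub_iff_left h2 ENNReal.one_ne_top).1 h1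

/-- the composition of the changes of the digits in a list -/
noncomputable def flips : List ℕ → BAut
  | [] => 1
  | k :: L => flipA k * flips L

theorem flips_lt (L : List ℕ) {p : unitInterval} (hp : (p : ℝ) < 1) : ((flips L).1 p : ℝ) < 1 := by
  induction L with
  | nil => exact hp
  | cons k L ih => exact flip_lt k ih

theorem flips_not_lt (L : List ℕ) {p : unitInterval} (hp : ¬ (p : ℝ) < 1) : (flips L).1 p = p := by
  induction L with
  | nil => rfl
  | cons k L ih =>
    show flip k ((flips L).1 p) = p
    rw [ih, flip_not_lt k hp]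

theorem dig_flips (L : List ℕ) (hL : L.Nodup) {p : unitInterval} (hp : (p : ℝ) < 1) (k : ℕ) :
    dig k ((flips L).1 p) = if k ∈ L then 1 - dig k p else dig k p := by
  induction L with
  | nil =>
    rw [if_neg List.not_mem_nil]
    rfl
  | cons j L ih =>
    have h1 := ih (List.nodup_cons.1 hL).2
    have hj := (List.nodup_cons.1 hL).1
    have h2 := dig_flip j (flips_lt L hp)
    show dig k (flip j ((flips L).1 p)) = _
    by_cases hk : k = j
    · subst hk
      rw [h2.1, h1, if_neg hj, if_pos List.mem_cons_self]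
    · rw [h2.2 k hk, h1]
      by_cases hkL : k ∈ L
      · rw [if_pos hkL, if_pos (List.mem_cons_of_mem _ hkL)]
      · rw [if_neg hkL, if_neg]
        intro h
        rcases List.mem_cons.1 h with h | h
        · exact hk h
        · exact hkL h

theorem flips_symm_lt (L : List ℕ) {p : unitInterval} (hp : (p : ℝ) < 1) :
    ((flips L).1.symm p : ℝ) < 1 := by
  by_contra h
  have h1 := flips_not_lt L h
  rw [Equiv.apply_symm_apply] at h1
  rw [← h1] at h
  exact h hp

theorem dig_flips_symm (L : List ℕ) (hL : L.Nodup) {p : unitInterval} (hp : (p : ℝ) < 1) (k : ℕ) :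
    dig k ((flips L).1.symm p) = if k ∈ L then 1 - dig k p else dig k p := by
  have h1 := dig_flips L hL (flips_symm_lt L hp) k
  rw [Equiv.apply_symm_apply] at h1
  have h2 := dig_lt k ((flips L).1.symm p)
  by_cases hk : k ∈ L
  · rw [if_pos hk] at h1 ⊢
    omega
  · rw [if_neg hk] at h1 ⊢
    exact h1.symm

/-- the involution which is `T` on `D` and `T⁻¹` on `T(D)` -/
noncomputable def swapFun (T : BAut) (D : Set unitInterval) (p : unitInterval) : unitInterval := by
  classical
  exact if p ∈ D then T.1 p else if T.1.symm p ∈ D then T.1.symm p else p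

theorem swapFun_of_mem {T : BAut} {D : Set unitInterval} {p : unitInterval} (hp : p ∈ D) :
    swapFun T D p = T.1 p := by
  unfold swapFun
  rw [if_pos hp]

theorem swapFun_of_symm_mem {T : BAut} {D : Set unitInterval} {p : unitInterval} (hp : p ∉ D)
    (hp' : T.1.symm p ∈ D) : swapFun T D p = T.1.symm p := by
  unfold swapFun
  rw [if_neg hp, if_pos hp']

theorem swapFun_of_not_mem {T : BAut} {D : Set unitInterval} {p : unitInterval} (hp : p ∉ D)
    (hp' : T.1.symm p ∉ D) : swapFun T D p = p := by
  unfold swapFun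
  rw [if_neg hp, if_neg hp']

theorem swapFun_swapFun {T : BAut} {D : Set unitInterval} (hD : ∀ p ∈ D, T.1 p ∉ D) (p : unitInterval) :
    swapFun T D (swapFun T D p) = p := by
  by_cases hp : p ∈ D
  · rw [swapFun_of_mem hp, swapFun_of_symm_mem (hD p hp) (by rw [Equiv.symm_apply_apply]; exact hp),
      Equiv.symm_apply_apply]
  · by_cases hp' : T.1.symm p ∈ D
    · rw [swapFun_of_symm_mem hp hp', swapFun_of_mem hp', Equiv.apply_symm_apply]
    · rw [swapFun_of_not_mem hp hp', swapFun_of_not_mem hp hp']

theorem measurable_swapFun (T : BAut) {D : Set unitInterval} (hD : MeasurableSet D) :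
    Measurable (swapFun T D) := by
  classical
  have h : swapFun T D = fun p => if p ∈ D then T.1 p else if T.1.symm p ∈ D then T.1.symm p else p := by
    funext p
    by_cases hp : p ∈ D
    · rw [swapFun_of_mem hp, if_pos hp]
    · by_cases hp' : T.1.symm p ∈ D
      · rw [swapFun_of_symm_mem hp hp', if_neg hp, if_pos hp']
      · rw [swapFun_of_not_mem hp hp', if_neg hp, if_neg hp']
  rw [h]
  exact Measurable.ite hD T.2.1.measurable (Measurable.ite (T.2.2.measurable hD) T.2.2.measurable measurable_id)

/-- the automorphism which is `T` on `D`, `T⁻¹` on `T(D)` and the identity elsewhere -/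
noncomputable def swapA (T : BAut) (D : Set unitInterval) (hD : MeasurableSet D) (hd : ∀ p ∈ D, T.1 p ∉ D) :
    BAut := by
  have hm : MeasurePreserving (swapFun T D) volume volume := by
    refine mp_of_piecewise (measurable_swapFun T hD) (swapFun_swapFun hd)
      (fun k => if k = 0 then T else if k = 1 then T⁻¹ else 1) fun p => ?_
    by_cases hp : p ∈ D
    · exact ⟨0, swapFun_of_mem hp⟩
    · by_cases hp' : T.1.symm p ∈ D
      · exact ⟨1, swapFun_of_symm_mem hp hp'⟩
      · exact ⟨2, swapFun_of_not_mem hp hp'⟩
  exact ⟨⟨swapFun T D, swapFun T D, swapFun_swapFun hd, swapFun_swapFun hd⟩, hm, hm⟩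

end Pool.Agent.H59.PM
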