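import Pool.Agent.H59.PM.Basic

/-!
# Module Real (PM): an almost everywhere invertible measure preserving map is almost everywhere equal to a Borel
automorphism
-/

set_option autoImplicit false

open MeasureTheory Filter Topology

namespace Pool.Agent.H59.PM

private theorem countable_compl_residual {c : Set ℝ} (hc : c.Countable) : cᶜ ∈ residual ℝ := by
  have h : cᶜ = ⋂ x ∈ c, ({x}ᶜ : Set ℝ) := by
    ext y
    simp only [Set.mem_compl_iff, Set.mem_iInter, Set.mem_singleton_iff]
    exact ⟨fun h x hx hxy => h (hxy ▸ hx), fun h hy => h y hy rfl⟩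
  rw [h, countable_bInter_mem hc]
  intro x _
  exact residual_of_dense_open isOpen_compl_singleton (dense_compl_singleton x)

theorem exists_uncountable_null :
    ∃ C : Set unitInterval, MeasurableSet C ∧ (volume : Measure unitInterval) C = 0 ∧ ¬ C.Countable := by
  obtain ⟨s, hs, t, ht, hst⟩ := Filter.disjoint_iff.1 Real.disjoint_residual_ae
  have hs0 : (volume : Measure ℝ) s = 0 := by
    have h1 : s ⊆ tᶜ := fun x hx hxt => Set.disjoint_left.1 hst hx hxt
    exact measure_mono_null h1 ht
  refine ⟨Subtype.val ⁻¹' toMeasurable volume s, measurable_subtype_coe (measurableSet_toMeasurable _ _), ?_, ?_⟩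
  · have h := unitInterval.measurePreserving_coe.measure_preimage
      (measurableSet_toMeasurable volume s).nullMeasurableSet
    rw [h]
    refine le_antisymm ((Measure.restrict_apply_le _ _).trans ?_) zero_le
    rw [measure_toMeasurable, hs0]
  · intro hc
    have hc2 : (Subtype.val '' (Subtype.val ⁻¹' toMeasurable volume s : Set unitInterval)).Countable := hc.image _
    have h3 := Filter.inter_mem hs (countable_compl_residual hc2)
    obtain ⟨x, hx1, hx2⟩ := (dense_of_mem_residual h3).inter_open_nonempty (Set.Ioo (0 : ℝ) 1) isOpen_Ioo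
      ⟨1 / 2, by norm_num, by norm_num⟩
    exact hx2.2 ⟨⟨x, hx1.1.le, hx1.2.le⟩, subset_toMeasurable volume s hx2.1, rfl⟩

theorem exists_baut {t s : unitInterval → unitInterval} (ht : MeasurePreserving t volume volume)
    (hs : MeasurePreserving s volume volume) (hst : ∀ᵐ p : unitInterval, s (t p) = p)
    (hts : ∀ᵐ p : unitInterval, t (s p) = p) :
    ∃ T : BAut, (∀ᵐ p : unitInterval, T.1 p = t p) ∧ ∀ᵐ p : unitInterval, T.1.symm p = s p := by
  classical
  obtain ⟨C, hC, hC0, hCc⟩ := exists_uncountable_null
  have hG : MeasurableSet {p : unitInterval | s (t p) = p} :=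
    measurableSet_eq_fun (hs.measurable.comp ht.measurable) measurable_id
  set G : Set unitInterval := {p | s (t p) = p} ∩ (Cᶜ ∩ t ⁻¹' Cᶜ) with hGdef
  have hGm : MeasurableSet G := hG.inter (hC.compl.inter (ht.measurable hC.compl))
  have hGae : ∀ᵐ p : unitInterval, p ∈ G := by
    have h1 : ∀ᵐ p : unitInterval, p ∉ C := measure_eq_zero_iff_ae_notMem.1 hC0
    have h2 : ∀ᵐ p : unitInterval, t p ∉ C := ht.quasiMeasurePreserving.ae h1
    filter_upwards [hst, h1, h2] with p hp1 hp2 hp3
    exact ⟨hp1, hp2, hp3⟩
  have : StandardBorelSpace G := hGm.standardBorel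
  have hinj : Function.Injective (fun p : G => t p) := by
    intro p q hpq
    apply Subtype.ext
    have h1 : s (t p) = p := p.2.1
    have h2 : s (t q) = q := q.2.1
    have h3 : t p = t q := hpq
    rw [← h1, ← h2, h3]
  have hemb : MeasurableEmbedding (fun p : G => t p) :=
    (ht.measurable.comp measurable_subtype_coe).measurableEmbedding hinj
  set R : Set unitInterval := Set.range (fun p : G => t p) with hR
  have hRm : MeasurableSet R := hemb.measurableSet_range
  have : StandardBorelSpace (Gᶜ : Set unitInterval) := hGm.compl.standardBorel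
  have : StandardBorelSpace (Rᶜ : Set unitInterval) := hRm.compl.standardBorel
  have hc1 : ¬ Countable (Gᶜ : Set unitInterval) := by
    intro h
    have h0 : C ⊆ Gᶜ := fun p hp hpG => hpG.2.1 hp
    exact hCc ((Set.countable_coe_iff.1 h).mono h0)
  have hc2 : ¬ Countable (Rᶜ : Set unitInterval) := by
    intro h
    have h0 : C ⊆ Rᶜ := by
      rintro p hp ⟨q, rfl⟩
      exact q.2.2.2 hp
    exact hCc ((Set.countable_coe_iff.1 h).mono h0)
  let e1 : G ≃ᵐ R := hemb.equivRange
  let e2 : (Gᶜ : Set unitInterval) ≃ᵐ (Rᶜ : Set unitInterval) :=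
    PolishSpace.measurableEquivOfNotCountable hc1 hc2
  let e : unitInterval ≃ᵐ unitInterval :=
    (MeasurableEquiv.sumCompl hGm).symm.trans ((MeasurableEquiv.sumCongr e1 e2).trans
      (MeasurableEquiv.sumCompl hRm))
  have he : ∀ p ∈ G, e p = t p := by
    intro p hp
    have h1 : (MeasurableEquiv.sumCompl hGm).symm p = Sum.inl ⟨p, hp⟩ := by
      rw [MeasurableEquiv.symm_apply_eq]
      rfl
    show (MeasurableEquiv.sumCompl hRm) ((MeasurableEquiv.sumCongr e1 e2)
      ((MeasurableEquiv.sumCompl hGm).symm p)) = t p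
    rw [h1]
    show ((e1 ⟨p, hp⟩ : R) : unitInterval) = t p
    rw [hemb.equivRange_apply]
  have heae : ∀ᵐ p : unitInterval, e p = t p := by
    filter_upwards [hGae] with p hp
    exact he p hp
  have hmp : MeasurePreserving e volume volume := by
    refine ⟨e.measurable, ?_⟩
    rw [Measure.map_congr (g := t) heae]
    exact ht.map_eq
  have hmp' : MeasurePreserving e.symm volume volume := hmp.symm e
  refine ⟨⟨e.toEquiv, hmp, hmp'⟩, heae, ?_⟩
  have h5 : ∀ᵐ p : unitInterval, e (s p) = t (s p) := hs.quasiMeasurePreserving.ae heae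
  filter_upwards [h5, hts] with p hp1 hp2
  rw [hp2] at hp1
  show e.symm p = s p
  rw [MeasurableEquiv.symm_apply_eq]
  exact hp1.symm

end Pool.Agent.H59.PM
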