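import Pool.Agent.H59.PM.Lone
import Pool.Agent.H59.PM.Real

/-!
# Module Polish (PM): the weak topology of `Aut01` is Polish
-/

set_option autoImplicit false

open MeasureTheory Filter Topology
open scoped symmDiff

namespace Pool.Agent.H59.PM

theorem integrable_coe {a : unitInterval → unitInterval} (ha : Measurable a) :
    Integrable (fun p => (a p : ℝ)) (volume : Measure unitInterval) := by
  refine Integrable.of_bound (measurable_subtype_coe.comp ha).aestronglyMeasurable 1
    (Filter.Eventually.of_forall fun p => ?_)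
  rw [Real.norm_eq_abs, abs_le]
  have h1 := (a p).2
  constructor <;> linarith [h1.1, h1.2]

/-- the class of a Borel map in `L^1` -/
noncomputable def fnOf (a : unitInterval → unitInterval) (ha : Measurable a) :
    unitInterval →₁[(volume : Measure unitInterval)] ℝ :=
  Integrable.toL1 (fun p => (a p : ℝ)) (integrable_coe ha)

theorem dist_fnOf {a b : unitInterval → unitInterval} (ha : Measurable a) (hb : Measurable b) :
    dist (fnOf a ha) (fnOf b hb) = ∫ p, dist (a p) (b p) := by
  rw [dist_eq_norm, fnOf, fnOf, ← Integrable.toL1_sub, L1.norm_of_fun_eq_integral_norm]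
  rfl

theorem fnOf_eq_iff {a b : unitInterval → unitInterval} (ha : Measurable a) (hb : Measurable b) :
    fnOf a ha = fnOf b hb ↔ ∀ᵐ p : unitInterval, a p = b p := by
  rw [fnOf, fnOf, Integrable.toL1_eq_toL1_iff]
  constructor
  · intro h
    filter_upwards [h] with p hp
    exact Subtype.ext hp
  · intro h
    filter_upwards [h] with p hp
    rw [hp]

/-- the class of `T` in `L^1` -/
noncomputable def fn (T : Aut01) : unitInterval →₁[(volume : Measure unitInterval)] ℝ :=
  fnOf (rep T).1 (rep T).2.1.measurable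

theorem fn_inv (T : Aut01) : fn T⁻¹ = fnOf (rep T).1.symm (rep T).2.2.measurable :=
  (fnOf_eq_iff _ _).2 (rep_inv T)

/-- the embedding -/
noncomputable def emb (T : Aut01) : (unitInterval →₁[(volume : Measure unitInterval)] ℝ) ×
    (unitInterval →₁[(volume : Measure unitInterval)] ℝ) := (fn T, fn T⁻¹)

theorem emb_injective : Function.Injective emb := by
  intro S T h
  have h1 : fn S = fn T := congrArg Prod.fst h
  exact eq_iff.2 ((fnOf_eq_iff _ _).1 h1)

/-- the set `[c, 1]` -/
noncomputable def upSet (c : ℝ) : MeasuredSets (volume : Measure unitInterval) :=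
  ⟨{p | c ≤ (p : ℝ)}, measurableSet_le measurable_const measurable_subtype_coe⟩

theorem dist_le_sum (N : ℕ) (hN : 0 < N) (x y : unitInterval) :
    dist x y ≤ 2 / N + (1 / N) * ∑ j ∈ Finset.Icc 1 N,
      |Set.indicator {p : unitInterval | (j : ℝ) / N ≤ (p : ℝ)} (fun _ => (1 : ℝ)) x -
        Set.indicator {p : unitInterval | (j : ℝ) / N ≤ (p : ℝ)} (fun _ => (1 : ℝ)) y| := by
  have hN' : (0 : ℝ) < N := by exact_mod_cast hN
  have key : ∀ z : unitInterval, ∑ j ∈ Finset.Icc 1 N,
      Set.indicator {p : unitInterval | (j : ℝ) / N ≤ (p : ℝ)} (fun _ => (1 : ℝ)) z = ⌊(N : ℝ) * z⌋₊ := by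
    intro z
    have h1 : ∀ j ∈ Finset.Icc 1 N, Set.indicator {p : unitInterval | (j : ℝ) / N ≤ (p : ℝ)}
        (fun _ => (1 : ℝ)) z = if j ≤ ⌊(N : ℝ) * z⌋₊ then 1 else 0 := by
      intro j hj
      rw [Set.indicator_apply]
      have hj1 : 0 < j := by
        have := (Finset.mem_Icc.1 hj).1
        omega
      have h2 : (z ∈ {p : unitInterval | (j : ℝ) / N ≤ (p : ℝ)}) ↔ j ≤ ⌊(N : ℝ) * z⌋₊ := by
        rw [Nat.le_floor_iff' hj1.ne', Set.mem_ofPred_eq, div_le_iff₀ hN', mul_comm]
      simp only [h2]
    rw [Finset.sum_congr rfl h1, Finset.sum_ite, Finset.sum_const_zero, add_zero, Finset.sum_const,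
      nsmul_eq_mul, mul_one]
    congr 1
    have h3 : Finset.filter (fun j => j ≤ ⌊(N : ℝ) * z⌋₊) (Finset.Icc 1 N) = Finset.Icc 1 ⌊(N : ℝ) * z⌋₊ := by
      ext j
      simp only [Finset.mem_filter, Finset.mem_Icc]
      have h4 : ⌊(N : ℝ) * z⌋₊ ≤ N := Nat.floor_le_of_le (by nlinarith [z.2.1, z.2.2])
      constructor
      · rintro ⟨⟨a, b⟩, c⟩
        exact ⟨a, c⟩
      · rintro ⟨a, b⟩
        exact ⟨⟨a, b.trans h4⟩, b⟩
    rw [h3, Nat.card_Icc]
    rfl
  have h5 : |(⌊(N : ℝ) * x⌋₊ : ℝ) - ⌊(N : ℝ) * y⌋₊| ≤ ∑ j ∈ Finset.Icc 1 N,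
      |Set.indicator {p : unitInterval | (j : ℝ) / N ≤ (p : ℝ)} (fun _ => (1 : ℝ)) x -
        Set.indicator {p : unitInterval | (j : ℝ) / N ≤ (p : ℝ)} (fun _ => (1 : ℝ)) y| := by
    rw [← key x, ← key y, ← Finset.sum_sub_distrib]
    exact Finset.abs_sum_le_sum_abs _ _
  have hx1 := Nat.floor_le (a := (N : ℝ) * x) (by nlinarith [x.2.1])
  have hx2 := Nat.lt_floor_add_one ((N : ℝ) * x)
  have hy1 := Nat.floor_le (a := (N : ℝ) * y) (by nlinarith [y.2.1])
  have hy2 := Nat.lt_floor_add_one ((N : ℝ) * y)
  rw [abs_le] at h5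
  rw [Subtype.dist_eq, Real.dist_eq]
  have h6 : (N : ℝ) * |(x : ℝ) - y| ≤ 2 + ∑ j ∈ Finset.Icc 1 N,
      |Set.indicator {p : unitInterval | (j : ℝ) / N ≤ (p : ℝ)} (fun _ => (1 : ℝ)) x -
        Set.indicator {p : unitInterval | (j : ℝ) / N ≤ (p : ℝ)} (fun _ => (1 : ℝ)) y| := by
    rcases abs_cases ((x : ℝ) - y) with h | h
    · rw [h.1]
      linarith [h5.1, h5.2]
    · rw [h.1]
      linarith [h5.1, h5.2]
  calc |(x : ℝ) - y| = (N : ℝ) * |(x : ℝ) - y| / N := by field_simp
    _ ≤ (2 + ∑ j ∈ Finset.Icc 1 N,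
      |Set.indicator {p : unitInterval | (j : ℝ) / N ≤ (p : ℝ)} (fun _ => (1 : ℝ)) x -
        Set.indicator {p : unitInterval | (j : ℝ) / N ≤ (p : ℝ)} (fun _ => (1 : ℝ)) y|) / N := by gcongr
    _ = _ := by ring

theorem indicator_dist (A : MeasuredSets (volume : Measure unitInterval)) (S T : Aut01) :
    ∫ p, |Set.indicator (A : Set unitInterval) (fun _ => (1 : ℝ)) ((rep S).1.symm p) -
      Set.indicator (A : Set unitInterval) (fun _ => (1 : ℝ)) ((rep T).1.symm p)| =
      (edist (img S A) (img T A)).toReal := by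
  rw [MeasuredSets.edist_def]
  have h1 : ∀ p : unitInterval, |Set.indicator (A : Set unitInterval) (fun _ => (1 : ℝ)) ((rep S).1.symm p) -
      Set.indicator (A : Set unitInterval) (fun _ => (1 : ℝ)) ((rep T).1.symm p)| =
      Set.indicator ((img S A : Set unitInterval) ∆ (img T A : Set unitInterval)) (fun _ => (1 : ℝ)) p := by
    intro p
    by_cases h2 : (rep S).1.symm p ∈ (A : Set unitInterval) <;>
    by_cases h3 : (rep T).1.symm p ∈ (A : Set unitInterval) <;>
    simp [coe_img, Set.mem_symmDiff, h2, h3]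
  simp_rw [h1]
  have h4 := integral_indicator (μ := (volume : Measure unitInterval)) (f := fun _ => (1 : ℝ))
    ((img S A).2.symmDiff (img T A).2)
  refine h4.trans ?_
  simp [Measure.real]
  rfl

theorem continuous_fn_inv : Continuous fun T : Aut01 => fn T⁻¹ := by
  refine continuous_iff_continuousAt.2 fun T => ?_
  show Tendsto _ _ _
  rw [Metric.tendsto_nhds]
  intro ε hε
  obtain ⟨N, hN⟩ := exists_nat_gt (4 / ε)
  have hN0 : 0 < N := by
    have h1 : (0 : ℝ) < N := (by positivity : (0 : ℝ) < 4 / ε).trans hN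
    exact_mod_cast h1
  have hN' : (0 : ℝ) < N := by exact_mod_cast hN0
  have h2 : (2 : ℝ) / N < ε / 2 := by
    rw [div_lt_iff₀ hε] at hN
    rw [div_lt_iff₀ hN']
    linarith
  have hsum : Tendsto (fun S : Aut01 => ∑ j ∈ Finset.Icc 1 N,
      (edist (img S (upSet ((j : ℝ) / N))) (img T (upSet ((j : ℝ) / N)))).toReal) (𝓝 T) (𝓝 0) := by
    have h3 : ∀ j ∈ Finset.Icc 1 N, Tendsto (fun S : Aut01 =>
        (edist (img S (upSet ((j : ℝ) / N))) (img T (upSet ((j : ℝ) / N)))).toReal) (𝓝 T) (𝓝 0) := by
      intro j _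
      have h4 := (ENNReal.tendsto_toReal ENNReal.zero_ne_top).comp (tendsto_edist_img (upSet ((j : ℝ) / N)) T)
      exact h4
    have h5 := tendsto_finsetSum (Finset.Icc 1 N) h3
    simpa using h5
  filter_upwards [hsum.eventually (gt_mem_nhds (half_pos hε))] with S hS
  rw [fn_inv, fn_inv, dist_fnOf]
  have hm : ∀ (j : ℕ) (R : Aut01), Integrable (fun p => Set.indicator
      ((upSet ((j : ℝ) / N) : MeasuredSets (volume : Measure unitInterval)) : Set unitInterval)
      (fun _ => (1 : ℝ)) ((rep R).1.symm p)) (volume : Measure unitInterval) := fun j R =>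
    integrable_comp ((integrable_const (1 : ℝ)).indicator (upSet ((j : ℝ) / N)).2) (rep R).2.2
  have hint : Integrable (fun p => 2 / (N : ℝ) + (1 / N) * ∑ j ∈ Finset.Icc 1 N,
      |Set.indicator ((upSet ((j : ℝ) / N) : MeasuredSets (volume : Measure unitInterval)) : Set unitInterval)
        (fun _ => (1 : ℝ)) ((rep S).1.symm p) -
      Set.indicator ((upSet ((j : ℝ) / N) : MeasuredSets (volume : Measure unitInterval)) : Set unitInterval)
        (fun _ => (1 : ℝ)) ((rep T).1.symm p)|) (volume : Measure unitInterval) := by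
    refine (integrable_const _).add (Integrable.const_mul (integrable_finsetSum _ fun j _ => ?_) _)
    exact ((hm j S).sub (hm j T)).abs
  calc ∫ p, dist ((rep S).1.symm p) ((rep T).1.symm p)
      ≤ ∫ p, (2 / (N : ℝ) + (1 / N) * ∑ j ∈ Finset.Icc 1 N,
      |Set.indicator ((upSet ((j : ℝ) / N) : MeasuredSets (volume : Measure unitInterval)) : Set unitInterval)
        (fun _ => (1 : ℝ)) ((rep S).1.symm p) -
      Set.indicator ((upSet ((j : ℝ) / N) : MeasuredSets (volume : Measure unitInterval)) : Set unitInterval)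
        (fun _ => (1 : ℝ)) ((rep T).1.symm p)|) := by
        refine integral_mono_of_nonneg (Filter.Eventually.of_forall fun p => dist_nonneg) hint
          (Filter.Eventually.of_forall fun p => dist_le_sum N hN0 _ _)
    _ = 2 / (N : ℝ) + (1 / N) * ∑ j ∈ Finset.Icc 1 N,
        (edist (img S (upSet ((j : ℝ) / N))) (img T (upSet ((j : ℝ) / N)))).toReal := by
        have i1 : ∀ j ∈ Finset.Icc 1 N, Integrable (fun p =>
          |Set.indicator ((upSet ((j : ℝ) / N) : MeasuredSets (volume : Measure unitInterval)) : Set unitInterval)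
            (fun _ => (1 : ℝ)) ((rep S).1.symm p) -
          Set.indicator ((upSet ((j : ℝ) / N) : MeasuredSets (volume : Measure unitInterval)) : Set unitInterval)
            (fun _ => (1 : ℝ)) ((rep T).1.symm p)|) (volume : Measure unitInterval) :=
          fun j _ => ((hm j S).sub (hm j T)).abs
        rw [integral_add (integrable_const _) (Integrable.const_mul (integrable_finsetSum _ i1) _),
          integral_const_mul, integral_finsetSum _ i1]
        simp_rw [indicator_dist]
        simp
    _ ≤ 2 / (N : ℝ) + ∑ j ∈ Finset.Icc 1 N,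
        (edist (img S (upSet ((j : ℝ) / N))) (img T (upSet ((j : ℝ) / N)))).toReal := by
        have h6 : (1 : ℝ) / N ≤ 1 := by
          rw [div_le_one hN']
          exact_mod_cast hN0
        have h7 : 0 ≤ ∑ j ∈ Finset.Icc 1 N,
          (edist (img S (upSet ((j : ℝ) / N))) (img T (upSet ((j : ℝ) / N)))).toReal :=
          Finset.sum_nonneg fun _ _ => ENNReal.toReal_nonneg
        nlinarith
    _ < ε := by linarith

theorem continuous_emb : Continuous emb := by
  have h := continuous_fn_inv.comp continuous_inv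
  have h2 : (fun T : Aut01 => fn T⁻¹⁻¹) = fn := by
    funext T
    rw [inv_inv]
  refine Continuous.prodMk ?_ continuous_fn_inv
  rw [← h2]
  exact h

theorem inducing_emb : IsInducing emb := by
  refine ⟨le_antisymm continuous_emb.le_induced ?_⟩
  show TopologicalSpace.induced emb _ ≤ weakTop
  let τ : TopologicalSpace Aut01 := TopologicalSpace.induced emb inferInstance
  have hc : Continuous emb := continuous_induced_dom
  have h : Continuous (img : Aut01 → MeasuredSets (volume : Measure unitInterval) →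
    MeasuredSets (volume : Measure unitInterval)) := by
    refine continuous_pi fun A => continuous_iff_continuousAt.2 fun T => ?_
    show Tendsto _ _ _
    rw [tendsto_iff_edist_tendsto_0]
    have hi : Integrable (Set.indicator (A : Set unitInterval) fun _ => (1 : ℝ))
      (volume : Measure unitInterval) := (integrable_const (1 : ℝ)).indicator A.2
    have h1 : Tendsto (fun S : Aut01 => (edist (img S A) (img T A)).toReal) (𝓝 T) (𝓝 0) := by
      rw [Metric.tendsto_nhds]
      intro ε hε
      obtain ⟨δ, hδ, hd⟩ := comp_close hi (half_pos hε)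
      have h2 : Tendsto (fun S : Aut01 => fn S⁻¹) (𝓝 T) (𝓝 (fn T⁻¹)) :=
        ((continuous_snd.comp hc).tendsto T)
      filter_upwards [(Metric.tendsto_nhds.1 h2) δ hδ] with S hS
      rw [fn_inv, fn_inv, dist_fnOf] at hS
      have h3 := hd _ _ (rep S).2.2 (rep T).2.2 hS.le
      simp only [Real.dist_eq] at h3
      rw [indicator_dist] at h3
      rw [dist_zero_right, Real.norm_eq_abs, abs_of_nonneg ENNReal.toReal_nonneg]
      linarith
    have h5 : ∀ S : Aut01, edist (img S A) (img T A) ≠ ⊤ := fun S => by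
      rw [MeasuredSets.edist_def]
      exact measure_ne_top _ _
    have h4 := (ENNReal.tendsto_toReal_iff h5 ENNReal.zero_ne_top).1 (by simpa using h1)
    exact h4
  exact continuous_iff_le_induced.1 h

/-- the values of an element of `L^1`, projected to `[0,1]` -/
theorem exists_proj (u : unitInterval →₁[(volume : Measure unitInterval)] ℝ) :
    ∃ (t : unitInterval → unitInterval) (ht : Measurable t),
      ∀ (a : unitInterval → unitInterval) (ha : Measurable a), dist (fnOf a ha) (fnOf t ht) ≤ dist (fnOf a ha) u := by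
  have hu : AEStronglyMeasurable (u : unitInterval → ℝ) volume := Lp.aestronglyMeasurable u
  refine ⟨fun p => Set.projIcc 0 1 zero_le_one (hu.mk u p),
    (continuous_projIcc.measurable.comp hu.stronglyMeasurable_mk.measurable), fun a ha => ?_⟩
  have h0 : u = Integrable.toL1 (hu.mk u) ((L1.integrable_coeFn u).congr hu.ae_eq_mk) := by
    apply Lp.ext
    refine hu.ae_eq_mk.trans ?_
    exact (Integrable.coeFn_toL1 _).symm
  rw [dist_fnOf]
  have h1 : dist (fnOf a ha) u = ∫ p, |(a p : ℝ) - hu.mk u p| := by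
    conv_lhs => rw [h0]
    rw [dist_eq_norm, fnOf, ← Integrable.toL1_sub, L1.norm_of_fun_eq_integral_norm]
    rfl
  rw [h1]
  have h2 : Integrable (fun p => |(a p : ℝ) - hu.mk u p|) (volume : Measure unitInterval) :=
    ((integrable_coe ha).sub ((L1.integrable_coeFn u).congr hu.ae_eq_mk)).abs
  refine integral_mono_of_nonneg (Filter.Eventually.of_forall fun p => dist_nonneg) h2
    (Filter.Eventually.of_forall fun p => ?_)
  show dist (a p) (Set.projIcc 0 1 zero_le_one (hu.mk u p)) ≤ |(a p : ℝ) - hu.mk u p|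
  rw [Subtype.dist_eq, Real.dist_eq, Set.coe_projIcc]
  have ha1 := (a p).2.1
  have ha2 := (a p).2.2
  rcases le_total (hu.mk u p) 0 with h3 | h3
  · rw [min_eq_right (h3.trans zero_le_one), max_eq_left h3, abs_of_nonneg (by linarith),
      abs_of_nonneg (by linarith)]
    linarith
  · rcases le_total (hu.mk u p) 1 with h4 | h4
    · rw [min_eq_right h4, max_eq_right h3]
    · rw [min_eq_left h4, max_eq_right zero_le_one, abs_of_nonpos (by linarith),
        abs_of_nonpos (by linarith)]
      linarith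

/-- an `L^1` limit of measure preserving maps is measure preserving -/
theorem mp_of_tendsto {T : ℕ → BAut} {t : unitInterval → unitInterval} (ht : Measurable t)
    (h : Tendsto (fun n => ∫ p, dist ((T n).1 p) (t p)) atTop (𝓝 0)) : MeasurePreserving t volume volume := by
  refine ⟨ht, ?_⟩
  have : IsProbabilityMeasure (Measure.map t (volume : Measure unitInterval)) :=
    Measure.isProbabilityMeasure_map ht.aemeasurable
  refine ext_of_forall_integral_eq_of_IsFiniteMeasure fun g => ?_
  rw [integral_map ht.aemeasurable g.continuous.aestronglyMeasurable]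
  refine eq_of_forall_dist_le fun ε hε => ?_
  obtain ⟨δ, hδ, hd⟩ := comp_close_cont g g.continuous hε
  obtain ⟨n, hn⟩ := ((Metric.tendsto_nhds.1 h) δ hδ).exists
  have h1 : ∫ p, dist ((T n).1 p) (t p) ≤ δ := by
    rw [dist_zero_right, Real.norm_eq_abs] at hn
    exact (le_abs_self _).trans hn.le
  have h2 := hd _ _ (T n).2.1.measurable ht h1
  have hgi : Integrable (fun p => g p) (volume : Measure unitInterval) :=
    BoundedContinuousFunction.integrable _ g
  have hgt : Integrable (fun p => g (t p)) (volume : Measure unitInterval) :=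
    Integrable.of_bound (g.continuous.measurable.comp ht).aestronglyMeasurable ‖g‖
      (Filter.Eventually.of_forall fun p => g.norm_coe_le_norm _)
  rw [← integral_comp_mp hgi (T n).2.1, Real.dist_eq, ← integral_sub hgt (integrable_comp hgi (T n).2.1)]
  calc |∫ p, (g (t p) - g ((T n).1 p))| ≤ ∫ p, |g (t p) - g ((T n).1 p)| := abs_integral_le_integral_abs
    _ = ∫ p, dist (g ((T n).1 p)) (g (t p)) := by
        congr 1
        funext p
        rw [Real.dist_eq, abs_sub_comm]
    _ ≤ ε := h2

theorem inv_of_tendsto {T : ℕ → BAut} {t s : unitInterval → unitInterval} (ht : Measurable t)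
    (hs : Measurable s)
    (h : Tendsto (fun n => ∫ p, dist ((T n).1 p) (t p)) atTop (𝓝 0))
    (h' : Tendsto (fun n => ∫ p, dist ((T n).1.symm p) (s p)) atTop (𝓝 0)) :
    ∀ᵐ p : unitInterval, s (t p) = p := by
  have hmt := mp_of_tendsto ht h
  have hid : Integrable (fun p => dist (s (t p)) p) (volume : Measure unitInterval) :=
    integrable_dist (hs.comp ht) measurable_id
  have h0 : ∫ p, dist (s (t p)) p ≤ 0 := by
    refine le_of_forall_pos_le_add fun ε hε => ?_
    rw [zero_add]
    have hsi := integrable_coe hs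
    obtain ⟨δ, hδ, hd⟩ := comp_close hsi (half_pos hε)
    obtain ⟨n, hn, hn'⟩ := (((Metric.tendsto_nhds.1 h) δ hδ).and
      ((Metric.tendsto_nhds.1 h') (ε / 2) (half_pos hε))).exists
    have h1 : ∫ p, dist ((T n).1 p) (t p) ≤ δ := by
      rw [dist_zero_right, Real.norm_eq_abs] at hn
      exact (le_abs_self _).trans hn.le
    have h2 : ∫ p, dist ((T n).1.symm p) (s p) ≤ ε / 2 := by
      rw [dist_zero_right, Real.norm_eq_abs] at hn'
      exact (le_abs_self _).trans hn'.le
    have h3 := hd _ _ (T n).2.1 hmt h1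
    have i3 := integrable_dist_comp hsi (T n).2.1 hmt
    have i4 : Integrable (fun p => dist ((T n).1.symm p) (s p)) (volume : Measure unitInterval) :=
      integrable_dist (T n).2.2.measurable hs
    have i5 := integrable_comp i4 (T n).2.1
    have h4 : ∫ p, dist ((T n).1.symm ((T n).1 p)) (s ((T n).1 p)) ≤ ε / 2 := by
      rw [integral_comp_mp i4 (T n).2.1]
      exact h2
    calc ∫ p, dist (s (t p)) p ≤ ∫ p, (dist (s ((T n).1 p) : ℝ) (s (t p) : ℝ) +
          dist ((T n).1.symm ((T n).1 p)) (s ((T n).1 p))) := by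
          refine integral_mono hid (i3.add i5) fun p => ?_
          have h5 := dist_triangle (s (t p)) (s ((T n).1 p)) p
          rw [(T n).1.symm_apply_apply, dist_comm p]
          rw [dist_comm (s (t p)) (s ((T n).1 p))] at h5
          exact h5
      _ = (∫ p, dist (s ((T n).1 p) : ℝ) (s (t p) : ℝ)) +
          ∫ p, dist ((T n).1.symm ((T n).1 p)) (s ((T n).1 p)) := integral_add i3 i5
      _ ≤ ε := by linarith
  have h6 : ∫ p, dist (s (t p)) p = 0 :=
    le_antisymm h0 (integral_nonneg fun p => dist_nonneg)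
  rw [integral_eq_zero_iff_of_nonneg (fun p => dist_nonneg) hid] at h6
  filter_upwards [h6] with p hp
  exact dist_eq_zero.1 hp

theorem isClosed_range_emb : IsClosed (Set.range emb) := by
  refine isClosed_of_closure_subset fun z hz => ?_
  obtain ⟨x, hx, hxz⟩ := mem_closure_iff_seq_limit.1 hz
  choose T hT using hx
  obtain ⟨u, v⟩ := z
  obtain ⟨t, ht, htu⟩ := exists_proj u
  obtain ⟨s, hs, hsv⟩ := exists_proj v
  have hxu : Tendsto (fun n => fn (T n)) atTop (𝓝 u) := by
    have h1 := (continuous_fst.tendsto (u, v)).comp hxz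
    have h2 : (Prod.fst ∘ x) = fun n => fn (T n) := by
      funext n
      rw [Function.comp_apply, ← hT]
      rfl
    rw [h2] at h1
    exact h1
  have hxv : Tendsto (fun n => fn (T n)⁻¹) atTop (𝓝 v) := by
    have h1 := (continuous_snd.tendsto (u, v)).comp hxz
    have h2 : (Prod.snd ∘ x) = fun n => fn (T n)⁻¹ := by
      funext n
      rw [Function.comp_apply, ← hT]
      rfl
    rw [h2] at h1
    exact h1
  have h3 : Tendsto (fun n => dist (fn (T n)) (fnOf t ht)) atTop (𝓝 0) := by
    refine squeeze_zero (fun _ => dist_nonneg) (fun n => htu _ _) ?_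
    exact tendsto_iff_dist_tendsto_zero.1 hxu
  have h4 : Tendsto (fun n => dist (fn (T n)⁻¹) (fnOf s hs)) atTop (𝓝 0) := by
    refine squeeze_zero (fun _ => dist_nonneg) (fun n => hsv _ _) ?_
    exact tendsto_iff_dist_tendsto_zero.1 hxv
  have hu : u = fnOf t ht := tendsto_nhds_unique hxu (tendsto_iff_dist_tendsto_zero.2 h3)
  have hv : v = fnOf s hs := tendsto_nhds_unique hxv (tendsto_iff_dist_tendsto_zero.2 h4)
  have h5 : Tendsto (fun n => ∫ p, dist ((rep (T n)).1 p) (t p)) atTop (𝓝 0) := by
    refine h3.congr fun n => ?_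
    exact dist_fnOf _ _
  have h6 : Tendsto (fun n => ∫ p, dist ((rep (T n)).1.symm p) (s p)) atTop (𝓝 0) := by
    refine h4.congr fun n => ?_
    rw [fn_inv]
    exact dist_fnOf _ _
  have h7 : Tendsto (fun n => ∫ p, dist (((rep (T n))⁻¹ : BAut).1 p) (s p)) atTop (𝓝 0) := h6
  have hmt := mp_of_tendsto ht h5
  have hms := mp_of_tendsto (T := fun n => (rep (T n))⁻¹) hs h7
  have hst := inv_of_tendsto ht hs h5 h6
  have hts := inv_of_tendsto (T := fun n => (rep (T n))⁻¹) hs ht h7 h5
  obtain ⟨R, hR, hR'⟩ := exists_baut hmt hms hst hts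
  refine ⟨mk R, ?_⟩
  rw [hu, hv]
  refine Prod.ext ?_ ?_
  · show fnOf (rep (mk R)).1 (rep (mk R)).2.1.measurable = fnOf t ht
    rw [fnOf_eq_iff]
    filter_upwards [rep_mk R, hR] with p h1 h2
    rw [h1, h2]
  · show fn (mk R)⁻¹ = _
    rw [fn_inv, fnOf_eq_iff]
    filter_upwards [rep_mk_symm R, hR'] with p h1 h2
    rw [h1, h2]

theorem isClosedEmbedding_emb : IsClosedEmbedding emb :=
  ⟨⟨inducing_emb, emb_injective⟩, isClosed_range_emb⟩

instance polish_aut : PolishSpace Aut01 := by
  have h0 : Fact ((1 : ENNReal) ≠ ⊤) := ⟨ENNReal.one_ne_top⟩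
  have h1 : TopologicalSpace.SeparableSpace (unitInterval →₁[(volume : Measure unitInterval)] ℝ) :=
    inferInstance
  have h2 : TopologicalSpace.SeparableSpace ((unitInterval →₁[(volume : Measure unitInterval)] ℝ) ×
    (unitInterval →₁[(volume : Measure unitInterval)] ℝ)) := inferInstance
  have h3 : PolishSpace ((unitInterval →₁[(volume : Measure unitInterval)] ℝ) ×
    (unitInterval →₁[(volume : Measure unitInterval)] ℝ)) := inferInstance
  exact isClosedEmbedding_emb.polishSpace

end Pool.Agent.H59.PM
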