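import Pool.Agent.H59.PM.HardA
import Pool.Agent.H59.PM.HardB

/-!
# Module Red (PM): completeness
-/

set_option autoImplicit false

open MeasureTheory Filter Topology

namespace Pool.Agent.H59.PM

instance polish_act : PolishSpace Act := by
  let e : Act ≃ₜ (ℕ → Aut01) :=
    { toFun := fun x i => x (FreeGroup.of i)
      invFun := ofGen
      left_inv := ofGen_eq
      right_inv := fun g => funext fun i => ofGen_of g i
      continuous_toFun := by
        refine continuous_pi fun i => ?_
        have h : Continuous fun (x : Act) (w : FreeGroup ℕ) => x w := continuous_induced_dom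
        exact (continuous_apply (FreeGroup.of i)).comp h
      continuous_invFun := continuous_ofGen }
  exact e.isClosedEmbedding.polishSpace

/-- the cylinder of `s` -/
def cyl (s : List ℕ) : Set (ℕ → ℕ) := {f | seg f s.length = s}

theorem seg_mono {f : ℕ → ℕ} {s r : List ℕ} (hr : r <+: s) (h : seg f s.length = s) :
    seg f r.length = r := by
  have h1 : (seg f s.length).take r.length = seg f r.length := take_seg f hr.length_le
  rw [← h1, h]
  exact (List.prefix_iff_eq_take.1 hr).symm

theorem seg_eq_iff {f g : ℕ → ℕ} {n : ℕ} : seg f n = seg g n ↔ ∀ i < n, f i = g i := by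
  unfold seg
  constructor
  · intro h i hi
    have h1 := congrArg (fun l => l[i]?) h
    simp only [List.getElem?_map, List.getElem?_range hi, Option.map_some, Option.some.injEq] at h1
    exact h1
  · intro h
    apply List.map_congr_left
    intro i hi
    exact h i (List.mem_range.1 hi)

theorem complete.{u} (Y : Type u) [TopologicalSpace Y] [PolishSpace Y] (B : Set Y) (hB : AnalyticSet B) :
    ∃ φ : Y → Act, @Measurable Y Act (borel Y) (borel Act) φ ∧ B = φ ⁻¹' Matched := by
  classical
  have key : ∀ T : Y → Set (List ℕ), (∀ s, IsClosed {y | s ∈ T y}) →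
      (∀ y, ∀ s ∈ T y, ∀ r, r <+: s → r ∈ T y) → (∀ y, y ∈ B ↔ ∃ f : ℕ → ℕ, ∀ n, seg f n ∈ T y) →
      ∃ φ : Y → Act, @Measurable Y Act (borel Y) (borel Act) φ ∧ B = φ ⁻¹' Matched := by
    intro T h1 h2 h3
    let b : Y → ℕ → Bool := fun y i => decide (node i ∈ T y)
    refine ⟨fun y => phi (b y), ?_, ?_⟩
    · let mY : MeasurableSpace Y := borel Y
      have hY : BorelSpace Y := ⟨rfl⟩
      have hb : Measurable b := by
        refine measurable_pi_lambda _ fun i => ?_
        refine measurable_to_bool ?_
        have h4 : (fun y => b y i) ⁻¹' {true} = {y | node i ∈ T y} := by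
          ext y
          simp only [b, Set.mem_preimage, Set.mem_singleton_iff, decide_eq_true_eq]
          exact Iff.rfl
        rw [h4]
        exact (h1 (node i)).measurableSet
      let mA : MeasurableSpace Act := borel Act
      have hA : BorelSpace Act := ⟨rfl⟩
      exact continuous_phi.measurable.comp hb
    · ext y
      rw [h3 y]
      constructor
      · rintro ⟨f, hf⟩
        refine matching_of_branch (f := f) fun i n hi => ?_
        show decide (node i ∈ T y) = true
        rw [hi]
        exact decide_eq_true (hf n)
      · intro hy
        refine branch_of_matching (b := b y) (T := T y) (fun i hi => ?_) (h2 y) hy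
        exact of_decide_eq_true hi
  rw [AnalyticSet] at hB
  rcases hB with rfl | ⟨g, hg, rfl⟩
  · refine key (fun _ => ∅) (fun s => ?_) (fun _ s hs => absurd hs (Set.notMem_empty s)) fun y => ?_
    · simp only [Set.mem_empty_iff_false, Set.ofPred_false]
      exact isClosed_empty
    · constructor
      · exact fun h => absurd h (Set.notMem_empty y)
      · rintro ⟨f, hf⟩
        exact absurd (hf 0) (Set.notMem_empty _)
  · refine key (fun y => {s | y ∈ closure (g '' cyl s)}) (fun s => ?_) (fun y s hs r hr => ?_) fun y => ?_
    · exact isClosed_closure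
    · refine closure_mono (Set.image_mono ?_) hs
      intro f hf
      exact seg_mono hr hf
    · constructor
      · rintro ⟨f, rfl⟩
        refine ⟨f, fun n => subset_closure ⟨f, ?_, rfl⟩⟩
        show seg f (seg f n).length = seg f n
        rw [length_seg]
      · rintro ⟨f, hf⟩
        refine ⟨f, ?_⟩
        let := TopologicalSpace.upgradeIsCompletelyMetrizable Y
        by_contra hne
        have hd : 0 < dist (g f) y := dist_pos.2 hne
        have h1 : g ⁻¹' Metric.ball (g f) (dist (g f) y / 2) ∈ 𝓝 f :=
          (hg.tendsto f) (Metric.ball_mem_nhds _ (half_pos hd))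
        rw [nhds_pi, Filter.mem_pi] at h1
        obtain ⟨I, hI, t, ht, hsub⟩ := h1
        obtain ⟨n, hn⟩ := hI.bddAbove
        have h2 : cyl (seg f (n + 1)) ⊆ g ⁻¹' Metric.ball (g f) (dist (g f) y / 2) := by
          intro h hh
          apply hsub
          intro i hi
          have h3 : seg h (n + 1) = seg f (n + 1) := by
            have h4 : seg h (seg f (n + 1)).length = seg f (n + 1) := hh
            rwa [length_seg] at h4
          have h5 : h i = f i := seg_eq_iff.1 h3 i (Nat.lt_succ_of_le (hn hi))
          rw [h5]
          exact mem_of_mem_nhds (ht i)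
        have h6 : y ∈ Metric.closedBall (g f) (dist (g f) y / 2) := by
          have h7 : closure (g '' cyl (seg f (n + 1))) ⊆ Metric.closedBall (g f) (dist (g f) y / 2) := by
            refine closure_minimal ?_ Metric.isClosed_closedBall
            rintro _ ⟨h, hh, rfl⟩
            exact Metric.ball_subset_closedBall (h2 hh)
          exact h7 (hf (n + 1))
        rw [Metric.mem_closedBall, dist_comm] at h6
        linarith

end Pool.Agent.H59.PM
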